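import Pool.Agent.H64.R45.Pairs
import Pool.Agent.H74.R45.SPot
import Pool.Agent.H74.R45.Wa

/-!
# The environments of a rectangle have the same increments off the moved line
-/

namespace Pool.Agent.H64.R45

open Pool.Agent.H64.Q1 hiding Tl
open LP Pool.Agent.H81.G1 Pool.Agent.H13.Q1 Pool.Agent.Q1 Pool.Agent.H33.Q1
open Pool.Agent.H75.Perc Pool.Agent.H75.TwoArm
open Pool.Agent.H74.R45 hiding Tl

/-! ### The root -/

/-- the root leads to the incoming end `z` -/
theorem root_of {X : Env} {ι : Type*} {lb : ι → ℤ × ℤ} {p : ι → Bool} {cr : ι × Dir → ℤ × ℤ}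
    (T : Tiles X lb p cr) {z : ι × Dir} {t : ℤ} (hz : inc p z = true)
    (K : Wire X X.c0 (cr z) t) : ∃ m : Meets X, rx0 T m = z ∧ dsh X (rn0 X) = t := by
  obtain ⟨n, a1, a2, a3⟩ := K
  have hm : Meets X := ⟨n, by rw [a2]; exact mem_cr T hz⟩
  have hn : rn0 X = n := by
    rcases lt_trichotomy (rn0 X) n with h | h | h
    · exact absurd (rn0_mem hm) (a1 _ h)
    · exact h
    · exact absurd (by rw [a2]; exact mem_cr T hz) (rn0_lt hm h)
  refine ⟨hm, ?_, ?_⟩
  · apply cr_inj T (rx0_in T hm) hz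
    rw [rx0_cr T hm, hn, a2]
  · rw [hn]
    exact a3

/-! ### Weights -/

section weights

variable {w h j x y : ℤ} {a b : ℂ}

theorem qJ_at (w h j : ℤ) (a b : ℂ) (x y : ℤ) : qJ w h j a b (lt (x, y)) =
    if x = -1 ∨ x = w then (if (x + y) % 2 = 1 then b else 1 - b)
    else if y = j - 1 then (if (x + y) % 2 = 0 then a else 1 - a) else 1 / 2 := by
  unfold qJ
  rw [tt_lt]

theorem w_nat (z : TJ w h j) (h1 : z.1.1 ≠ -1) (h2 : z.1.1 ≠ w) (h3 : z.1.2 ≠ j - 1) :
    wA lbJ tyJ (qJ w h j a b) z = 1 / 2 ∧ wB lbJ tyJ (qJ w h j a b) z = 1 / 2 := by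
  obtain ⟨⟨x, y⟩, hq⟩ := z
  simp only at h1 h2 h3
  unfold wA wB lbJ
  simp only
  rw [qJ_at, if_neg (show ¬ (x = -1 ∨ x = w) by omega), if_neg h3]
  constructor <;> split_ifs <;> norm_num

theorem w_col (z : TJ w h j) (h1 : z.1.1 = -1 ∨ z.1.1 = w) :
    wA lbJ tyJ (qJ w h j a b) z = 1 - b ∧ wB lbJ tyJ (qJ w h j a b) z = b := by
  obtain ⟨⟨x, y⟩, hq⟩ := z
  simp only at h1
  unfold wA wB lbJ tyJ
  simp only
  rw [qJ_at, if_pos h1]
  rcases Int.emod_two_eq_zero_or_one (x + y) with h | h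
  · rw [h]; simp
  · rw [h]; simp

theorem w_row (z : TJ w h j) (h1 : z.1.1 ≠ -1) (h2 : z.1.1 ≠ w) (h3 : z.1.2 = j - 1) :
    wA lbJ tyJ (qJ w h j a b) z = a ∧ wB lbJ tyJ (qJ w h j a b) z = 1 - a := by
  obtain ⟨⟨x, y⟩, hq⟩ := z
  simp only at h1 h2 h3
  unfold wA wB lbJ tyJ
  simp only
  rw [qJ_at, if_neg (show ¬ (x = -1 ∨ x = w) by omega), if_pos h3]
  rcases Int.emod_two_eq_zero_or_one (x + y) with h | h
  · rw [h]; simp
  · rw [h]; simp

end weights

/-! ### The trigonometric weights -/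

section trig

theorem sin_ne {u : ℂ} (hu : Complex.sin (2 * u) ≠ 0) (k : ℤ) :
    Complex.sin (ang (-u - Real.pi / 2) k) ≠ 0 := by
  intro h
  apply hu
  rw [Complex.sin_eq_zero_iff] at h ⊢
  obtain ⟨m, hm⟩ := h
  refine ⟨k - 1 - 2 * m, ?_⟩
  unfold ang at hm
  push_cast
  linear_combination (-2) * hm

theorem sin_third {x : ℂ} (h : Complex.sin x ≠ 0) : Complex.sin (x / 3) ≠ 0 := by
  intro h0
  apply h
  rw [Complex.sin_eq_zero_iff] at h0 ⊢
  obtain ⟨m, hm⟩ := h0
  refine ⟨3 * m, ?_⟩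
  push_cast
  linear_combination 3 * hm

theorem sin_u {u : ℂ} (hu : Complex.sin (2 * u) ≠ 0) (k : ℤ) :
    Complex.sin (u + k * (Real.pi / 2)) ≠ 0 := by
  intro h
  apply hu
  rw [Complex.sin_eq_zero_iff] at h ⊢
  obtain ⟨m, hm⟩ := h
  refine ⟨2 * m - k, ?_⟩
  push_cast
  linear_combination 2 * hm

variable {u : ℂ}

theorem wa2 (hu : Complex.sin (2 * u) ≠ 0) :
    wa (ang (-u - Real.pi / 2) 2) = 1 - wa (u + Real.pi / 2) := by
  have h1 : Complex.sin ((u + Real.pi / 2 + Real.pi) / 3) ≠ 0 := by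
    apply sin_third
    have := sin_u hu 3
    convert this using 2
    push_cast
    ring
  rw [one_sub_wa _ h1]
  unfold wa ang
  have e1 : (-u - (Real.pi : ℂ) / 2 + ((2 : ℤ) : ℂ) * (Real.pi / 2)) / 3 =
      ((Real.pi : ℂ) - (u + Real.pi / 2)) / 3 := by push_cast; ring
  have e2 : (-u - (Real.pi : ℂ) / 2 + ((2 : ℤ) : ℂ) * (Real.pi / 2) + Real.pi) / 3 =
      Real.pi - (u + Real.pi / 2 + Real.pi) / 3 := by push_cast; ring
  rw [e1, e2, Complex.sin_pi_sub]

theorem wa3 (hu : Complex.sin (2 * u) ≠ 0) :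
    wa (ang (-u - Real.pi / 2) 3) = 1 - wa u := by
  have h1 : Complex.sin ((u + Real.pi) / 3) ≠ 0 := by
    apply sin_third
    have := sin_u hu 2
    convert this using 2
    push_cast
    ring
  rw [one_sub_wa _ h1]
  unfold wa ang
  have e1 : (-u - (Real.pi : ℂ) / 2 + ((3 : ℤ) : ℂ) * (Real.pi / 2)) / 3 =
      ((Real.pi : ℂ) - u) / 3 := by push_cast; ring
  have e2 : (-u - (Real.pi : ℂ) / 2 + ((3 : ℤ) : ℂ) * (Real.pi / 2) + Real.pi) / 3 =
      Real.pi - (u + Real.pi) / 3 := by push_cast; ring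
  rw [e1, e2, Complex.sin_pi_sub]

theorem wa4 (u : ℂ) : (wa (ang (-u - Real.pi / 2) 4))⁻¹ = wa (u + Real.pi / 2) := by
  unfold wa ang
  rw [inv_div]
  have e1 : (-u - (Real.pi : ℂ) / 2 + ((4 : ℤ) : ℂ) * (Real.pi / 2)) / 3 =
      Real.pi - (u + Real.pi / 2 + Real.pi) / 3 := by push_cast; ring
  have e2 : (-u - (Real.pi : ℂ) / 2 + ((4 : ℤ) : ℂ) * (Real.pi / 2) + Real.pi) / 3 =
      Real.pi - (u + Real.pi / 2) / 3 := by push_cast; ring
  rw [e1, e2, Complex.sin_pi_sub, Complex.sin_pi_sub]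

theorem wa5 (u : ℂ) : (wa (ang (-u - Real.pi / 2) 5))⁻¹ = wa u := by
  unfold wa ang
  rw [inv_div]
  have e1 : (-u - (Real.pi : ℂ) / 2 + ((5 : ℤ) : ℂ) * (Real.pi / 2)) / 3 =
      Real.pi - (u + Real.pi) / 3 := by push_cast; ring
  have e2 : (-u - (Real.pi : ℂ) / 2 + ((5 : ℤ) : ℂ) * (Real.pi / 2) + Real.pi) / 3 =
      Real.pi - u / 3 := by push_cast; ring
  rw [e1, e2, Complex.sin_pi_sub, Complex.sin_pi_sub]

end trig

/-! ### The comparison -/

variable {W M : ℕ} {w h i j : ℤ} {u : ℂ}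

/-- the data of the exchange theorem -/
theorem epair (O : Out w h) (R : RootOut O) (H : Hyp W M w h i j) (hu : Complex.sin (2 * u) ≠ 0) :
    EPair (RX H (-u - Real.pi / 2) (sin_ne hu)) H.N0 H.N0 (TT1 O H) (TT2 O H) (J1 H) (J2 H)
      (s1 W M) (s2 W M) (qJ w h i (wa u) (wa (u + Real.pi / 2)))
      (qJ w h j (wa u) (wa (u + Real.pi / 2))) := by
  have hW := H.hW
  have hM := H.hM
  have w0 := H.w0
  have w2 := H.w2
  have i0 := H.i0
  have i2 := H.i2
  have ij := H.ij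
  have j2 := H.j2
  have jh := H.jh
  have h2 := H.h2
  have W0 := H.W0
  have M0 := H.M0
  refine ⟨line1 H _ _, line2 H _ _, ?_, ?_, ?_, ?_, ?_, ?_, ?_, rfl, rfl, Or.inr ?_⟩
  · intro q
    obtain ⟨q', P⟩ := ex_pr O H _ (sin_ne hu) q
    exact ⟨q', P.p1, P.p2, P.t⟩
  · -- incoming ends
    have key : ∀ (q : EX W M w h i j) {p p' : ℤ × ℤ} {d d' : Dir} {c : ℤ},
        At H _ (sin_ne hu) q p d p' d' c → inq p d = inq p' d' →
        inc tyJ (e1 H _ (sin_ne hu) q) = inc tyJ (e2 H _ (sin_ne hu) q) := by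
      intro q p p' d d' c A e
      rw [inc_eq_inq, inc_eq_inq, A.a, A.b, A.a', A.b', e]
    have kk : ∀ {x y x' y' : ℤ} {d : Dir}, (x + y) % 2 = (x' + y') % 2 →
        inq (x, y) d = inq (x', y') d := by
      intro x y x' y' d e
      unfold inq
      simp only
      rw [e]
    intro q
    rcases q with t | t | x | _ | _
    · by_cases c1 : (t : ℕ) < M
      · exact key _ (at_f1_lt H _ _ c1) (kk (by omega))
      · exact key _ (at_f1_ge H _ _ c1) rfl
    · by_cases c1 : (t : ℕ) < M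
      · exact key _ (at_f2_lt H _ _ c1) (kk (by omega))
      · exact key _ (at_f2_ge H _ _ c1) rfl
    · rfl
    · refine key _ (at_u H _ _) ?_
      rw [oH rfl (by omega), oV rfl (by omega)]
    · refine key _ (at_v H _ _) ?_
      rw [iV rfl (by omega), iH rfl (by omega)]
  · rintro ⟨⟨x, y⟩, hx, hy⟩
    simp only at hx hy
    refine (w_nat (J1 H (.inl ⟨(x, y), hx, hy⟩)) ?_ ?_ ?_).1 <;> rw [J1_val] <;>
      simp only [pos1] <;> omega
  · rintro ⟨⟨x, y⟩, hx, hy⟩
    simp only at hx hy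
    refine (w_nat (J2 H (.inl ⟨(x, y), hx, hy⟩)) ?_ ?_ ?_).1 <;> rw [J2_val] <;>
      simp only [pos2] <;> omega
  · rintro ⟨⟨x, y⟩, hq⟩
    have ha := (mem_PO H).1 hq
    simp only at ha
    by_cases c1 : x = -1 ∨ x = w
    · rw [(w_col (J1 H (.inr (.inl ⟨(x, y), hq⟩))) c1).2,
        (w_col (J2 H (.inr (.inl ⟨(x, y), hq⟩))) c1).2]
    · rw [(w_nat (J1 H (.inr (.inl ⟨(x, y), hq⟩))) (fun e => c1 (Or.inl e))
          (fun e => c1 (Or.inr e)) (fun e => by
            change y = i - 1 at e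
            omega)).2,
        (w_nat (J2 H (.inr (.inl ⟨(x, y), hq⟩))) (fun e => c1 (Or.inl e))
          (fun e => c1 (Or.inr e)) (fun e => by
            change y = j - 1 at e
            omega)).2]
  · intro t
    have ht := t.2
    change _ = wa (ang _ (rkf (rf1 W M t)))
    by_cases c1 : (t : ℕ) < M
    · have e1 : s1 W M t = .N := if_pos c1
      have e2 : rkf (rf1 W M t) = 2 := by unfold rf1; rw [if_pos c1]; rfl
      have e3 : (J1 H (.inr (.inr t))).1 = (-1, j - 1 - t) := by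
        rw [J1_val]; simp only [pos1, if_pos c1]
      rw [e1, e2, wa2 hu, if_pos (show Dir.N.v = true from rfl)]
      exact (w_col _ (Or.inl (by rw [e3]))).1
    · have e1 : s1 W M t = .W := if_neg c1
      have e2 : rkf (rf1 W M t) = 3 := by unfold rf1; rw [if_neg c1]; rfl
      have e3 : (J1 H (.inr (.inr t))).1 = ((t : ℤ) - M, i - 1) := by
        rw [J1_val]; simp only [pos1, if_neg c1]
      rw [e1, e2, wa3 hu, if_neg (by decide)]
      exact (w_row _ (by rw [e3]; simp only; omega) (by rw [e3]; simp only; omega)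
        (by rw [e3])).2
  · intro t
    have ht := t.2
    change _ = 1 - (wa (ang _ (rkf (rf2 W M t))))⁻¹
    by_cases c1 : (t : ℕ) < M
    · have e1 : s2 W M t = .S := if_pos c1
      have e2 : rkf (rf2 W M t) = 4 := by unfold rf2; rw [if_pos c1]; rfl
      have e3 : (J2 H (.inr (.inr t))).1 = (w, i - 1 + t) := by
        rw [J2_val]; simp only [pos2, if_pos c1]
      rw [e1, e2, wa4, if_pos (show Dir.S.v = true from rfl)]
      exact (w_col _ (Or.inr (by rw [e3]))).1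
    · have e1 : s2 W M t = .E := if_neg c1
      have e2 : rkf (rf2 W M t) = 5 := by unfold rf2; rw [if_neg c1]; rfl
      have e3 : (J2 H (.inr (.inr t))).1 = (w - 1 - ((t : ℤ) - M), j - 1) := by
        rw [J2_val]; simp only [pos2, if_neg c1]
      rw [e1, e2, wa5, if_neg (by decide)]
      exact (w_row _ (by rw [e3]; simp only; omega) (by rw [e3]; simp only; omega)
        (by rw [e3])).2
  · -- the root
    obtain ⟨b, t, hb, Hb⟩ := root_ent O R.far R.meets
    obtain ⟨q0, A⟩ := at_ent H _ (sin_ne hu) hb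
    have x1 := mem_ent O i0 H.i1 i2 b
    have x2 := mem_ent O H.j0 jh j2 b
    have z1 : e1 H _ (sin_ne hu) q0 = (⟨_, x1.1⟩, (qEnt w h i b).2) :=
      Prod.ext (Subtype.ext A.a) A.b
    have z2 : e2 H _ (sin_ne hu) q0 = (⟨_, x2.1⟩, (qEnt w h j b).2) :=
      Prod.ext (Subtype.ext A.a') A.b'
    obtain ⟨m1, r1, r2⟩ := root_of (TT1 O H) (z := (⟨_, x1.1⟩, (qEnt w h i b).2)) (t := t)
      (by rw [inc_eq_inq]; exact x1.2) (Hb i i0 H.i1 i2)
    obtain ⟨m2, r3, r4⟩ := root_of (TT2 O H) (z := (⟨_, x2.1⟩, (qEnt w h j b).2)) (t := t)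
      (by rw [inc_eq_inq]; exact x2.2) (Hb j H.j0 jh j2)
    refine ⟨m1, m2, q0, r1.trans z1.symm, r3.trans z2.symm, ?_⟩
    have e := A.c
    rw [r2, r4, e, sub_zero]

/-- the increments at an exposed end -/
theorem inc_at (O : Out w h) (R : RootOut O) (H : Hyp W M w h i j) (hu : Complex.sin (2 * u) ≠ 0)
    {q : EX W M w h i j} {p p' : ℤ × ℤ} {d d' : Dir} {c : ℤ}
    (A : At H _ (sin_ne hu) q p d p' d' c) :
    FJ O (wa u) (wa (u + Real.pi / 2)) j (ce p' d') =
      zt ^ (6 * (ty (ce p' d') - ty (ce p d)) + 2 * c) *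
        FJ O (wa u) (wa (u + Real.pi / 2)) i (ce p d) := by
  rw [FJ_eq H.j0 H.jh, FJ_eq H.i0 H.i1]
  have h1 := env_exchange (epair O R H hu) q
  have e1' : crJ (e1 H _ (sin_ne hu) q) = ce p d := by
    unfold crJ; rw [A.a, A.b]
  have e2' : crJ (e2 H _ (sin_ne hu) q) = ce p' d' := by
    unfold crJ; rw [A.a', A.b']
  change _ = zt ^ (6 * (ty (crJ (e2 H _ (sin_ne hu) q)) - ty (crJ (e1 H _ (sin_ne hu) q))) +
    2 * (RX H (-u - Real.pi / 2) (sin_ne hu)).dl H.N0 H.N0 q) *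
      (XJ O i H.i0 H.i1).incW (qJ w h i (wa u) (wa (u + Real.pi / 2)))
        (crJ (e1 H _ (sin_ne hu) q)) at h1
  rw [A.c, e1', e2'] at h1
  exact h1

/-- the same corner -/
theorem inc_same (O : Out w h) (R : RootOut O) (H : Hyp W M w h i j)
    (hu : Complex.sin (2 * u) ≠ 0) {q : EX W M w h i j} {p p' : ℤ × ℤ} {d d' : Dir} {c : ℤ}
    (A : At H _ (sin_ne hu) q p d p' d' c) (hc : c = 0) {e : ℤ × ℤ} (h1 : ce p d = e)
    (h2 : ce p' d' = e) : FJ O (wa u) (wa (u + Real.pi / 2)) j e =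
      FJ O (wa u) (wa (u + Real.pi / 2)) i e := by
  have := inc_at O R H hu A
  rw [h1, h2, hc, sub_self, mul_zero, mul_zero, add_zero, zpow_zero, one_mul] at this
  exact this

/-- the numbers -/
theorem hyp_of (O : Out w h) (i0 : 0 ≤ i) (i2 : i % 2 = 0) (ij : i < j) (j2 : j % 2 = 0)
    (jh : j ≤ h) : Hyp w.toNat (j - i).toNat w h i j :=
  ⟨by have := O.hw; omega, by omega, O.hw, O.w2, i0, i2, ij, j2, jh, O.h2⟩

/-- increments above the line, from the environment number `0` -/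
theorem low_all (O : Out w h) (R : RootOut O) (hu : Complex.sin (2 * u) ≠ 0) (j0 : 0 < j)
    (j2 : j % 2 = 0) (jh : j ≤ h) :
    (∀ x y, 0 ≤ x → x < w → j ≤ y → y ≤ h → FJ O (wa u) (wa (u + Real.pi / 2)) j (he (x, y)) =
      FJ O (wa u) (wa (u + Real.pi / 2)) 0 (he (x, y))) ∧
    (∀ x y, 0 ≤ x → x ≤ w → j ≤ y → y < h → FJ O (wa u) (wa (u + Real.pi / 2)) j (ve (x, y)) =
      FJ O (wa u) (wa (u + Real.pi / 2)) 0 (ve (x, y))) ∧
    FJ O (wa u) (wa (u + Real.pi / 2)) j (he (-1, j)) =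
      FJ O (wa u) (wa (u + Real.pi / 2)) 0 (he (-1, j)) := by
  have H := hyp_of (i := 0) (j := j) O le_rfl rfl j0 j2 jh
  have hW := H.hW
  have hM := H.hM
  have w0 := H.w0
  have h2 := H.h2
  have mem : ∀ {x y : ℤ}, ((0 ≤ x ∧ x < w ∧ j ≤ y ∧ y < h) ∨ (0 ≤ x ∧ x < w ∧ -1 ≤ y ∧ y < 0 - 1) ∨
      (x = -1 ∧ j ≤ y ∧ y < h) ∨ (x = w ∧ -1 ≤ y ∧ y < 0 - 1)) → (x, y) ∈ PO w h 0 j :=
    fun h => (mem_PO H).2 h
  refine ⟨?_, ?_, ?_⟩
  · intro x y a b c d
    by_cases c1 : y = j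
    · subst c1
      have A := at_f2_ge H _ (sin_ne hu)
        (t := ⟨(y - 0).toNat + (w - 1 - x).toNat, by omega⟩) (by simp only; omega)
      have e : ce (w - 1 - ((((y - 0).toNat + (w - 1 - x).toNat : ℕ) : ℤ) - ((y - 0).toNat : ℕ)),
          y - 1) .N = he (x, y) := he_eq (by simp only; omega) (by simp only; omega)
      exact inc_same O R H hu A rfl e e
    · have m1 : (x, y - 1) ∈ PO w h 0 j := mem (by omega)
      have A := at_oo H _ (sin_ne hu) m1 .N
      have e : ce (x, y - 1) .N = he (x, y) := he_eq rfl (by simp only; omega)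
      exact inc_same O R H hu A rfl e e
  · intro x y a b c d
    by_cases c1 : x = w
    · subst c1
      have m1 : (x - 1, y) ∈ PO x h 0 j := mem (by omega)
      have A := at_oo H _ (sin_ne hu) m1 .E
      have e : ce (x - 1, y) .E = ve (x, y) := ve_eq (by simp only; omega) rfl
      exact inc_same O R H hu A rfl e e
    · have m1 : (x, y) ∈ PO w h 0 j := mem (by omega)
      have A := at_oo H _ (sin_ne hu) m1 .W
      exact inc_same O R H hu A rfl rfl rfl
  · by_cases c1 : j < h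
    · have m1 : (-1, j) ∈ PO w h 0 j := mem (by omega)
      have A := at_oo H _ (sin_ne hu) m1 .S
      exact inc_same O R H hu A rfl rfl rfl
    · have A := at_v H _ (sin_ne hu)
      have h3 := inc_at O R H hu A
      have e1 : ce (-1, j - 1) .N = he (-1, j) := he_eq rfl (by simp only; omega)
      have e2 : ce (0, j - 1) .W = ve (0, j - 1) := rfl
      rw [e1, e2, turn H.j0 jh j2, ty_ve_E (by omega), ty_he_S (by omega)] at h3
      have h4 : zt ^ (6 * ((1 : ℤ) - 0) + 2 * -1) = w6 := by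
        rw [← ph_one, ph_zt]
        norm_num
      rw [h4] at h3
      exact mul_left_cancel₀ w6_ne h3

/-- increments below the line, from the environment number `h` -/
theorem up_all (O : Out w h) (R : RootOut O) (hu : Complex.sin (2 * u) ≠ 0) (i0 : 0 ≤ i)
    (i2 : i % 2 = 0) (ih : i < h) :
    (∀ x y, 0 ≤ x → x < w → -1 ≤ y → y ≤ i - 1 →
      FJ O (wa u) (wa (u + Real.pi / 2)) i (he (x, y)) =
        FJ O (wa u) (wa (u + Real.pi / 2)) h (he (x, y))) ∧
    (∀ x y, 0 ≤ x → x ≤ w → -1 ≤ y → y < i - 1 →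
      FJ O (wa u) (wa (u + Real.pi / 2)) i (ve (x, y)) =
        FJ O (wa u) (wa (u + Real.pi / 2)) h (ve (x, y))) ∧
    (i = 0 → ∀ y, 0 ≤ y → y < h → FJ O (wa u) (wa (u + Real.pi / 2)) i (ve (-1, y)) =
        FJ O (wa u) (wa (u + Real.pi / 2)) h (ve (0, y - 1))) := by
  have H := hyp_of (i := i) (j := h) O i0 i2 ih O.h2 le_rfl
  have hW := H.hW
  have hM := H.hM
  have w0 := H.w0
  have h2 := H.h2
  have mem : ∀ {x y : ℤ}, ((0 ≤ x ∧ x < w ∧ h ≤ y ∧ y < h) ∨ (0 ≤ x ∧ x < w ∧ -1 ≤ y ∧ y < i - 1) ∨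
      (x = -1 ∧ h ≤ y ∧ y < h) ∨ (x = w ∧ -1 ≤ y ∧ y < i - 1)) → (x, y) ∈ PO w h i h :=
    fun h => (mem_PO H).2 h
  refine ⟨?_, ?_, ?_⟩
  · intro x y a b c d
    by_cases c1 : y = i - 1
    · subst c1
      have A := at_f1_ge H _ (sin_ne hu)
        (t := ⟨(h - i).toNat + x.toNat, by omega⟩) (by simp only; omega)
      have e : ce ((((h - i).toNat + x.toNat : ℕ) : ℤ) - ((h - i).toNat : ℕ), i - 1) .S =
          he (x, i - 1) := he_eq (by simp only; omega) rfl
      exact (inc_same O R H hu A rfl e e).symm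
    · have m1 : (x, y) ∈ PO w h i h := mem (by omega)
      have A := at_oo H _ (sin_ne hu) m1 .S
      exact (inc_same O R H hu A rfl rfl rfl).symm
  · intro x y a b c d
    by_cases c1 : x = w
    · subst c1
      have m1 : (x - 1, y) ∈ PO x h i h := mem (by omega)
      have A := at_oo H _ (sin_ne hu) m1 .E
      have e : ce (x - 1, y) .E = ve (x, y) := ve_eq (by simp only; omega) rfl
      exact (inc_same O R H hu A rfl e e).symm
    · have m1 : (x, y) ∈ PO w h i h := mem (by omega)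
      have A := at_oo H _ (sin_ne hu) m1 .W
      exact (inc_same O R H hu A rfl rfl rfl).symm
  · rintro rfl y a b
    have A := at_f1_lt H _ (sin_ne hu) (t := ⟨(h - 1 - y).toNat, by omega⟩)
      (by simp only; omega)
    have h3 := inc_at O R H hu A
    have e1 : ce (-1, h - 1 - (((h - 1 - y).toNat : ℕ) : ℤ)) .W = ve (-1, y) :=
      ve_eq rfl (by simp only; omega)
    have e2 : ce (0, h - 2 - (((h - 1 - y).toNat : ℕ) : ℤ)) .W = ve (0, y - 1) :=
      ve_eq rfl (by simp only; omega)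
    change FJ O (wa u) (wa (u + Real.pi / 2)) h
      (ce (0, h - 2 - (((h - 1 - y).toNat : ℕ) : ℤ)) .W) =
      zt ^ (6 * (ty (ce (0, h - 2 - (((h - 1 - y).toNat : ℕ) : ℤ)) .W) -
        ty (ce (-1, h - 1 - (((h - 1 - y).toNat : ℕ) : ℤ)) .W)) + 2 * 0) *
      FJ O (wa u) (wa (u + Real.pi / 2)) 0 (ce (-1, h - 1 - (((h - 1 - y).toNat : ℕ) : ℤ)) .W)
      at h3
    rw [e1, e2] at h3
    have e3 : ty (ve (0, y - 1)) = ty (ve (-1, y)) := by
      rcases Int.emod_two_eq_zero_or_one y with h4 | h4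
      · rw [ty_ve_E (by omega), ty_ve_E (by omega)]
      · rw [ty_ve_W (by omega), ty_ve_W (by omega)]
    rw [e3, sub_self, mul_zero, mul_zero, add_zero, zpow_zero, one_mul] at h3
    exact h3.symm

/-- **The environments of a rectangle have the same increments off the moved line.** -/
theorem same_wa (O : Out w h) (R : RootOut O) (hu : Complex.sin (2 * u) ≠ 0) :
    Same O (wa u) (wa (u + Real.pi / 2)) := by
  refine ⟨?_, ?_, ?_, ?_, ?_, ?_⟩
  · intro j h0 h1 h2 x y a b c d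
    rcases h0.eq_or_lt with rfl | h0
    · rfl
    · exact (low_all O R hu h0 h2 h1).1 x y a b c d
  · intro j h0 h1 h2 x y a b c d
    rcases h0.eq_or_lt with rfl | h0
    · rfl
    · exact (low_all O R hu h0 h2 h1).2.1 x y a b c d
  · intro j h0 h1 h2
    rcases h0.eq_or_lt with rfl | h0
    · rfl
    · exact (low_all O R hu h0 h2 h1).2.2
  · intro j h0 h1 h2 x y a b c d
    rcases h1.eq_or_lt with rfl | h1
    · rfl
    · exact (up_all O R hu h0 h2 h1).1 x y a b c d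
  · intro j h0 h1 h2 x y a b c d
    rcases h1.eq_or_lt with rfl | h1
    · rfl
    · exact (up_all O R hu h0 h2 h1).2.1 x y a b c d
  · intro y a b
    exact (up_all O R hu le_rfl rfl (by have := O.hh; omega)).2.2 rfl y a b

/-- **(A4)** without hypothesis: the potential of the row -/
theorem potential_row (O : Out w h) (R : RootOut O) (hu : Complex.sin (2 * u) ≠ 0)
    {Hl Hu : ℤ → ℤ → ℂ} (hl : Pot (FJ O (wa u) (wa (u + Real.pi / 2)) 0) Hl 0 w 0 h)
    (hp : Pot (FJ O (wa u) (wa (u + Real.pi / 2)) h) Hu 0 w (-1) (h - 1)) :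
    ∃ C : ℂ, ∀ j x : ℤ, 0 ≤ j → j ≤ h → j % 2 = 0 → 0 ≤ x → x ≤ w →
      Pool.Agent.H74.R45.sg x * FJ O (wa u) (wa (u + Real.pi / 2)) j (ve (x, j - 1)) =
        Complex.exp (-(2 * Complex.I / 3) * (u - Real.pi / 2)) * (Hl x j - Hu x (j - 1)) + C := by
  refine potential_wa u ?_ ?_ (same_wa O R hu) hl hp
  · apply sin_third
    have := sin_u hu 2
    convert this using 2
    push_cast
    ring
  · apply sin_third
    have := sin_u hu 3
    convert this using 2
    push_cast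
    ring

end Pool.Agent.H64.R45
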