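import Pool.Agent.H64.R45.Pos

/-!
# The two line networks and the wires between the exposed ends
-/

namespace Pool.Agent.H64.R45

open Pool.Agent.H64.Q1 hiding Tl
open LP Pool.Agent.H81.G1 Pool.Agent.H13.Q1 Pool.Agent.Q1 Pool.Agent.H33.Q1
open Pool.Agent.H75.Perc Pool.Agent.H75.TwoArm
open Pool.Agent.H74.R45 hiding Tl

variable {W M : ℕ} {w h i j : ℤ}

theorem Hyp.W0 (H : Hyp W M w h i j) : 0 < W := by
  have := H.hW
  have := H.w0
  omega

theorem Hyp.M0 (H : Hyp W M w h i j) : 0 < M := by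
  have := H.hM
  have := H.ij
  omega

theorem Hyp.N0 (H : Hyp W M w h i j) : 0 < M + W := by
  have := H.W0
  omega

/-- the moved rectangle -/
noncomputable abbrev RX (H : Hyp W M w h i j) (φ : ℂ) (hφ : ∀ k, Complex.sin (ang φ k) ≠ 0) :
    Rgn (RQ W M) RA (M + W) (M + W) := rect W M H.W0 H.M0 φ hφ

/-- exposed ends -/
abbrev EX (W M : ℕ) (w h i j : ℤ) : Type := Ex (OT w h i j) (M + W) (M + W)

section net

variable (O : Out w h) (H : Hyp W M w h i j)

/-- number `i` -/
theorem Hyp.i1 (H : Hyp W M w h i j) : i ≤ h := H.ij.le.trans H.jh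

theorem Hyp.j0 (H : Hyp W M w h i j) : 0 ≤ j := H.i0.trans H.ij.le

/-- the tiles number `i` -/
noncomputable abbrev TT1 : Tiles (XJ O i H.i0 H.i1) (lbJ : TJ w h i → ℤ × ℤ) tyJ crJ :=
  tilesJ O H.i0 H.i1

/-- the tiles number `j` -/
noncomputable abbrev TT2 : Tiles (XJ O j H.j0 H.jh) (lbJ : TJ w h j → ℤ × ℤ) tyJ crJ :=
  tilesJ O H.j0 H.jh

variable {O}

/-- a wire of a network from a `WQ` -/
theorem wire_of {j : ℤ} {h0 : 0 ≤ j} {h1 : j ≤ h} {z z' : TJ w h j × Dir} {p p' : ℤ × ℤ}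
    {d d' : Dir} {t : ℤ} (a : z.1.1 = p) (a' : z.2 = d) (b : z'.1.1 = p') (b' : z'.2 = d')
    (K : WQ O h0 h1 p d p' d' t) : wπ (tilesJ O h0 h1) z = z' ∧ wτ (tilesJ O h0 h1) z = t := by
  obtain ⟨⟨q, hq⟩, e⟩ := z
  obtain ⟨⟨q', hq'⟩, e'⟩ := z'
  simp only at a a' b b'
  subst a a' b b'
  exact ⟨(K hq hq').1, (K hq hq').2.2.1⟩

/-- the ends in the rectangle -/
theorem rg_rer {x y : RQ W M × Dir} (e : rg (rer x) = rer y) :
    (x.2 = .W ∧ y.2 = .E ∧ y.1.1.1 + 1 = x.1.1.1 ∧ y.1.1.2 = x.1.1.2) ∨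
    (x.2 = .E ∧ y.2 = .W ∧ y.1.1.1 = x.1.1.1 + 1 ∧ y.1.1.2 = x.1.1.2) ∨
    (x.2 = .N ∧ y.2 = .S ∧ y.1.1.1 = x.1.1.1 ∧ y.1.1.2 = x.1.1.2 + 1) ∨
    (x.2 = .S ∧ y.2 = .N ∧ y.1.1.1 = x.1.1.1 ∧ y.1.1.2 + 1 = x.1.1.2) := by
  obtain ⟨⟨⟨a, b⟩, ha, hb⟩, d⟩ := x
  obtain ⟨⟨⟨a', b'⟩, ha', hb'⟩, d'⟩ := y
  cases d <;> cases d' <;> simp only [rer, rnm, rg_l, Sum.inl.injEq, Prod.mk.injEq] at e <;>
    first
    | exact absurd e.1 (by decide)
    | (simp only [true_and, and_true]; simp; omega)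

theorem line1 (φ : ℂ) (hφ : ∀ k, Complex.sin (ang φ k) ≠ 0) (x y : TJ w h i × Dir) :
    LineNet (RX H φ hφ).g (RX H φ hφ).er (RX H φ hφ).p1 (fun t => (RX H φ hφ).kf ((RX H φ hφ).f1 t))
      (J1 H) (s1 W M) ⟨wπ (TT1 O H), wτ (TT1 O H), x, y⟩ := by
  have hW := H.hW
  have hM := H.hM
  refine ⟨fun z => wπ_wπ _ z, fun z => wτ_wπ _ z, ?_, ?_, ?_⟩
  · intro x y e
    obtain ⟨⟨⟨a, b⟩, ha, hb⟩, d⟩ := x
    obtain ⟨⟨⟨a', b'⟩, ha', hb'⟩, d'⟩ := y
    rcases rg_rer e with ⟨e1, e2, e3, e4⟩ | ⟨e1, e2, e3, e4⟩ | ⟨e1, e2, e3, e4⟩ | ⟨e1, e2, e3, e4⟩ <;>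
      simp only at e1 e2 e3 e4 <;> subst e1 e2 <;>
      refine wire_of (z := jr (J1 H) _) (z' := jr (J1 H) _) (p := ((a : ℤ), i + b))
        (p' := ((a' : ℤ), i + b')) rfl rfl rfl rfl ?_
    · exact q_WE (by omega) (by omega)
    · exact q_EW (by omega) (by omega)
    · exact q_NS (by omega) (by omega)
    · exact q_SN (by omega) (by omega)
  · intro t
    have ht := t.2
    by_cases hh : (t : ℕ) < M
    · have e1 : (RX H φ hφ).p1 t = rp1 H.W0 H.M0 t := rfl
      rw [e1, rp1_lt _ _ hh]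
      refine wire_of (z := jr (J1 H) _) (z' := jl (J1 H) _ _) (p := (0, i + (M - 1 - t : ℕ)))
        (p' := (-1, j - 1 - t)) (d := .W) (d' := .E) rfl rfl ?_ ?_ (q_WE (by omega) (by omega))
      · change pos1 W M w h i j (.inr (.inr t)) = _
        simp only [pos1, if_pos hh]
      · change rc (s1 W M t) = .E
        simp only [s1, if_pos hh]
        rfl
    · have e1 : (RX H φ hφ).p1 t = rp1 H.W0 H.M0 t := rfl
      rw [e1, rp1_ge _ _ hh]
      refine wire_of (z := jr (J1 H) _) (z' := jl (J1 H) _ _) (p := ((t - M : ℕ), i + (0 : ℕ)))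
        (p' := (t - M, i - 1)) (d := .S) (d' := .N) rfl rfl ?_ ?_ (q_SN (by omega) (by omega))
      · change pos1 W M w h i j (.inr (.inr t)) = _
        simp only [pos1, if_neg hh]
      · change rc (s1 W M t) = .N
        simp only [s1, if_neg hh]
        rfl
  · intro t t' e
    have ht := t.2
    have ht' := t'.2
    have k1 : ∀ t : Fin (M + W), (RX H φ hφ).kf ((RX H φ hφ).f1 t) = if (t : ℕ) < M then 2 else 3 := by
      intro t
      change rkf (rf1 W M t) = _
      unfold rf1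
      split_ifs <;> rfl
    rw [k1, k1]
    by_cases hh : (t' : ℕ) < M
    · rw [if_pos hh, if_pos (by omega), sub_self]
      refine wire_of (z := jl (J1 H) _ _) (z' := jl (J1 H) _ _) (p := (-1, j - 1 - t))
        (p' := (-1, j - 1 - t')) (d := .S) (d' := .N) ?_ ?_ ?_ ?_ (q_SN (by omega) (by omega))
      · change pos1 W M w h i j (.inr (.inr t)) = _
        simp only [pos1, if_pos (show (t : ℕ) < M by omega)]
      · change rc (rc (s1 W M t)) = .S
        simp only [s1, if_pos (show (t : ℕ) < M by omega)]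
        rfl
      · change pos1 W M w h i j (.inr (.inr t')) = _
        simp only [pos1, if_pos hh]
      · change s1 W M t' = .N
        simp only [s1, if_pos hh]
    · by_cases h' : (t : ℕ) < M
      · rw [if_neg hh, if_pos h']
        refine wire_of (z := jl (J1 H) _ _) (z' := jl (J1 H) _ _) (p := (-1, j - 1 - t))
          (p' := (t' - M, i - 1)) (d := .S) (d' := .W) ?_ ?_ ?_ ?_
          (q_Tl H.i2 rfl (by omega) (by omega) (by omega))
        · change pos1 W M w h i j (.inr (.inr t)) = _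
          simp only [pos1, if_pos h']
        · change rc (rc (s1 W M t)) = .S
          simp only [s1, if_pos h']
          rfl
        · change pos1 W M w h i j (.inr (.inr t')) = _
          simp only [pos1, if_neg hh]
        · change s1 W M t' = .W
          simp only [s1, if_neg hh]
      · rw [if_neg hh, if_neg h', sub_self]
        refine wire_of (z := jl (J1 H) _ _) (z' := jl (J1 H) _ _) (p := (t - M, i - 1))
          (p' := (t' - M, i - 1)) (d := .E) (d' := .W) ?_ ?_ ?_ ?_ (q_EW (by omega) (by omega))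
        · change pos1 W M w h i j (.inr (.inr t)) = _
          simp only [pos1, if_neg h']
        · change rc (rc (s1 W M t)) = .E
          simp only [s1, if_neg h']
          rfl
        · change pos1 W M w h i j (.inr (.inr t')) = _
          simp only [pos1, if_neg hh]
        · change s1 W M t' = .W
          simp only [s1, if_neg hh]

theorem line2 (φ : ℂ) (hφ : ∀ k, Complex.sin (ang φ k) ≠ 0) (x y : TJ w h j × Dir) :
    LineNet (RX H φ hφ).g (RX H φ hφ).er (RX H φ hφ).p2 (fun t => (RX H φ hφ).kf ((RX H φ hφ).f2 t))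
      (J2 H) (s2 W M) ⟨wπ (TT2 O H), wτ (TT2 O H), x, y⟩ := by
  have hW := H.hW
  have hM := H.hM
  refine ⟨fun z => wπ_wπ _ z, fun z => wτ_wπ _ z, ?_, ?_, ?_⟩
  · intro x y e
    obtain ⟨⟨⟨a, b⟩, ha, hb⟩, d⟩ := x
    obtain ⟨⟨⟨a', b'⟩, ha', hb'⟩, d'⟩ := y
    rcases rg_rer e with ⟨e1, e2, e3, e4⟩ | ⟨e1, e2, e3, e4⟩ | ⟨e1, e2, e3, e4⟩ | ⟨e1, e2, e3, e4⟩ <;>
      simp only at e1 e2 e3 e4 <;> subst e1 e2 <;>
      refine wire_of (z := jr (J2 H) _) (z' := jr (J2 H) _) (p := ((a : ℤ), i - 1 + b))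
        (p' := ((a' : ℤ), i - 1 + b')) rfl rfl rfl rfl ?_
    · exact q_WE (by omega) (by omega)
    · exact q_EW (by omega) (by omega)
    · exact q_NS (by omega) (by omega)
    · exact q_SN (by omega) (by omega)
  · intro t
    have ht := t.2
    have e1 : (RX H φ hφ).p2 t = rp2 H.W0 H.M0 t := rfl
    by_cases hh : (t : ℕ) < M
    · rw [e1, rp2_lt _ _ hh]
      refine wire_of (z := jr (J2 H) _) (z' := jl (J2 H) _ _) (p := ((W - 1 : ℕ), i - 1 + t))
        (p' := (w, i - 1 + t)) (d := .E) (d' := .W) rfl rfl ?_ ?_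
        (q_EW (by have := H.W0; omega) (by omega))
      · change pos2 W M w h i j (.inr (.inr t)) = _
        simp only [pos2, if_pos hh]
      · change rc (s2 W M t) = .W
        simp only [s2, if_pos hh]
        rfl
    · rw [e1, rp2_ge _ _ hh]
      refine wire_of (z := jr (J2 H) _) (z' := jl (J2 H) _ _)
        (p := ((W - 1 - (t - M) : ℕ), i - 1 + (M - 1 : ℕ)))
        (p' := (w - 1 - (t - M), j - 1)) (d := .N) (d' := .S) rfl rfl ?_ ?_
        (q_NS (by omega) (by have := H.M0; omega))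
      · change pos2 W M w h i j (.inr (.inr t)) = _
        simp only [pos2, if_neg hh]
      · change rc (s2 W M t) = .S
        simp only [s2, if_neg hh]
        rfl
  · intro t t' e
    have ht := t.2
    have ht' := t'.2
    have k1 : ∀ t : Fin (M + W), (RX H φ hφ).kf ((RX H φ hφ).f2 t) = if (t : ℕ) < M then 4 else 5 := by
      intro t
      change rkf (rf2 W M t) = _
      unfold rf2
      split_ifs <;> rfl
    rw [k1, k1]
    by_cases hh : (t' : ℕ) < M
    · rw [if_pos hh, if_pos (by omega), sub_self]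
      refine wire_of (z := jl (J2 H) _ _) (z' := jl (J2 H) _ _) (p := (w, i - 1 + t))
        (p' := (w, i - 1 + t')) (d := .N) (d' := .S) ?_ ?_ ?_ ?_ (q_NS (by omega) (by omega))
      · change pos2 W M w h i j (.inr (.inr t)) = _
        simp only [pos2, if_pos (show (t : ℕ) < M by omega)]
      · change rc (rc (s2 W M t)) = .N
        simp only [s2, if_pos (show (t : ℕ) < M by omega)]
        rfl
      · change pos2 W M w h i j (.inr (.inr t')) = _
        simp only [pos2, if_pos hh]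
      · change s2 W M t' = .S
        simp only [s2, if_pos hh]
    · by_cases h' : (t : ℕ) < M
      · rw [if_neg hh, if_pos h']
        refine wire_of (z := jl (J2 H) _ _) (z' := jl (J2 H) _ _) (p := (w, i - 1 + t))
          (p' := (w - 1 - (t' - M), j - 1)) (d := .N) (d' := .E) ?_ ?_ ?_ ?_ ?_
        · change pos2 W M w h i j (.inr (.inr t)) = _
          simp only [pos2, if_pos h']
        · change rc (rc (s2 W M t)) = .N
          simp only [s2, if_pos h']
          rfl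
        · change pos2 W M w h i j (.inr (.inr t')) = _
          simp only [pos2, if_neg hh]
        · change s2 W M t' = .E
          simp only [s2, if_neg hh]
        · have := (q_Tr (O := O) (h0 := H.j0) (h1 := H.jh) (x := w - 1 - (t' - M)) (y := j - 1)
            (x' := w) (y' := i - 1 + t) H.j2 (by omega) rfl (by omega) (by omega)).symm
          exact this
      · rw [if_neg hh, if_neg h', sub_self]
        refine wire_of (z := jl (J2 H) _ _) (z' := jl (J2 H) _ _) (p := (w - 1 - (t - M), j - 1))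
          (p' := (w - 1 - (t' - M), j - 1)) (d := .W) (d' := .E) ?_ ?_ ?_ ?_
          (q_WE (by omega) (by omega))
        · change pos2 W M w h i j (.inr (.inr t)) = _
          simp only [pos2, if_neg h']
        · change rc (rc (s2 W M t)) = .W
          simp only [s2, if_neg h']
          rfl
        · change pos2 W M w h i j (.inr (.inr t')) = _
          simp only [pos2, if_neg hh]
        · change s2 W M t' = .E
          simp only [s2, if_neg hh]

end net

/-! ### Positions of the exposed ends -/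

section ends

variable (H : Hyp W M w h i j) (φ : ℂ) (hφ : ∀ k, Complex.sin (ang φ k) ≠ 0)

/-- the exposed ends of the environment number `i` -/
noncomputable abbrev e1 (q : EX W M w h i j) : TJ w h i × Dir :=
  (RX H φ hφ).E1 H.N0 (J1 H) (s1 W M) q

/-- the exposed ends of the environment number `j` -/
noncomputable abbrev e2 (q : EX W M w h i j) : TJ w h j × Dir :=
  (RX H φ hφ).E2 H.N0 (J2 H) (s2 W M) q

/-- the end `q` is the end `d` of the tile at `p`, in the environments number `i` and `j` -/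
structure At (q : EX W M w h i j) (p : ℤ × ℤ) (d : Dir) (p' : ℤ × ℤ) (d' : Dir) (c : ℤ) : Prop where
  a : (e1 H φ hφ q).1.1 = p
  b : (e1 H φ hφ q).2 = d
  a' : (e2 H φ hφ q).1.1 = p'
  b' : (e2 H φ hφ q).2 = d'
  c : (RX H φ hφ).dl H.N0 H.N0 q = c

theorem at_o (q : OT w h i j) (d : Dir) : At H φ hφ (.o (q, d)) q.1 d q.1 d 0 :=
  ⟨rfl, rfl, rfl, rfl, rfl⟩

theorem at_f1_lt {t : Fin (M + W)} (ht : (t : ℕ) < M) :
    At H φ hφ (.f1 t) (-1, j - 1 - t) .W (0, j - 2 - t) .W 0 := by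
  have hM := H.hM
  refine ⟨?_, ?_, ?_, ?_, rfl⟩
  · change pos1 W M w h i j (.inr (.inr t)) = _
    simp only [pos1, if_pos ht]
  · change rc (rc (rc (s1 W M t))) = .W
    simp only [s1, if_pos ht]
    rfl
  · change pos2 W M w h i j (.inl (rp1 H.W0 H.M0 t).1) = _
    rw [rp1_lt _ _ ht]
    simp only [pos2, Prod.mk.injEq, true_and, and_true]
    omega
  · change (rp1 H.W0 H.M0 t).2 = _
    rw [rp1_lt _ _ ht]

theorem at_f1_ge {t : Fin (M + W)} (ht : ¬ (t : ℕ) < M) :
    At H φ hφ (.f1 t) (t - M, i - 1) .S (t - M, i - 1) .S 0 := by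
  have hM := H.hM
  refine ⟨?_, ?_, ?_, ?_, rfl⟩
  · change pos1 W M w h i j (.inr (.inr t)) = _
    simp only [pos1, if_neg ht]
  · change rc (rc (rc (s1 W M t))) = .S
    simp only [s1, if_neg ht]
    rfl
  · change pos2 W M w h i j (.inl (rp1 H.W0 H.M0 t).1) = _
    rw [rp1_ge _ _ ht]
    simp only [pos2, Prod.mk.injEq, true_and, and_true]
    omega
  · change (rp1 H.W0 H.M0 t).2 = _
    rw [rp1_ge _ _ ht]

theorem at_f2_lt {t : Fin (M + W)} (ht : (t : ℕ) < M) :
    At H φ hφ (.f2 t) (w - 1, i + t) .E (w, i - 1 + t) .E 0 := by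
  have hW := H.hW
  have hW0 := H.W0
  refine ⟨?_, ?_, ?_, ?_, rfl⟩
  · change pos1 W M w h i j (.inl (rp2 H.W0 H.M0 t).1) = _
    rw [rp2_lt _ _ ht]
    simp only [pos1, Prod.mk.injEq, true_and, and_true]
    omega
  · change (rp2 H.W0 H.M0 t).2 = _
    rw [rp2_lt _ _ ht]
  · change pos2 W M w h i j (.inr (.inr t)) = _
    simp only [pos2, if_pos ht]
  · change rc (rc (rc (s2 W M t))) = .E
    simp only [s2, if_pos ht]
    rfl

theorem at_f2_ge {t : Fin (M + W)} (ht : ¬ (t : ℕ) < M) :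
    At H φ hφ (.f2 t) (w - 1 - (t - M), j - 1) .N (w - 1 - (t - M), j - 1) .N 0 := by
  have hW := H.hW
  have hW0 := H.W0
  have hM := H.hM
  have hM0 := H.M0
  have ht' := t.2
  refine ⟨?_, ?_, ?_, ?_, rfl⟩
  · change pos1 W M w h i j (.inl (rp2 H.W0 H.M0 t).1) = _
    rw [rp2_ge _ _ ht]
    simp only [pos1, Prod.mk.injEq, true_and, and_true]
    omega
  · change (rp2 H.W0 H.M0 t).2 = _
    rw [rp2_ge _ _ ht]
  · change pos2 W M w h i j (.inr (.inr t)) = _
    simp only [pos2, if_neg ht]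
  · change rc (rc (rc (s2 W M t))) = .N
    simp only [s2, if_neg ht]
    rfl

theorem at_u : At H φ hφ .u (w - 1, i - 1) .E (w, i - 1) .S 1 := by
  have hW := H.hW
  have hW0 := H.W0
  have hM := H.hM
  have hM0 := H.M0
  have n1 : ¬ M + W - 1 < M := by omega
  refine ⟨?_, ?_, ?_, ?_, ?_⟩
  · change pos1 W M w h i j (.inr (.inr ⟨M + W - 1, _⟩)) = _
    simp only [pos1, if_neg n1, Prod.mk.injEq, and_true]
    omega
  · change rc (rc (s1 W M ⟨M + W - 1, _⟩)) = .E
    simp only [s1, if_neg n1]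
    rfl
  · change pos2 W M w h i j (.inr (.inr ⟨0, _⟩)) = _
    simp only [pos2, if_pos hM0, Nat.cast_zero, add_zero]
  · change s2 W M ⟨0, _⟩ = .S
    simp only [s2, if_pos hM0]
  · change 1 - rkf (rf2 W M ⟨0, H.N0⟩) + 0 - (0 - (rkf (rf1 W M ⟨M + W - 1, _⟩) + 1)) = 1
    unfold rf2 rf1
    simp only [if_pos hM0, if_neg n1]
    rfl

theorem at_v : At H φ hφ .v (-1, j - 1) .N (0, j - 1) .W (-1) := by
  have hW := H.hW
  have hW0 := H.W0
  have hM := H.hM
  have hM0 := H.M0
  have n1 : ¬ M + W - 1 < M := by omega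
  refine ⟨?_, ?_, ?_, ?_, ?_⟩
  · change pos1 W M w h i j (.inr (.inr ⟨0, _⟩)) = _
    simp only [pos1, if_pos hM0, Nat.cast_zero, sub_zero]
  · change s1 W M ⟨0, _⟩ = .N
    simp only [s1, if_pos hM0]
  · change pos2 W M w h i j (.inr (.inr ⟨M + W - 1, _⟩)) = _
    simp only [pos2, if_neg n1, Prod.mk.injEq, and_true]
    omega
  · change rc (rc (s2 W M ⟨M + W - 1, _⟩)) = .W
    simp only [s2, if_neg n1]
    rfl
  · change 4 - (rkf (rf2 W M ⟨M + W - 1, _⟩) + 1) - (1 - rkf (rf1 W M ⟨0, H.N0⟩) + 0) = -1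
    unfold rf2 rf1
    simp only [if_pos hM0, if_neg n1]
    rfl

end ends

end Pool.Agent.H64.R45
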