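import Pool.Agent.H64.R45.Pair

/-!
# The wires between the exposed ends agree in the two environments
-/

namespace Pool.Agent.H64.R45

open Pool.Agent.H64.Q1 hiding Tl
open LP Pool.Agent.H81.G1 Pool.Agent.H13.Q1 Pool.Agent.Q1 Pool.Agent.H33.Q1
open Pool.Agent.H75.Perc Pool.Agent.H75.TwoArm
open Pool.Agent.H74.R45 hiding Tl

variable {W M : ℕ} {w h i j : ℤ}

/-- the exposed ends `q`, `q'` are joined in both environments, with the right turnings -/
structure Pr (O : Out w h) (H : Hyp W M w h i j) (φ : ℂ) (hφ : ∀ k, Complex.sin (ang φ k) ≠ 0)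
    (q q' : EX W M w h i j) : Prop where
  p1 : wπ (TT1 O H) (e1 H φ hφ q) = e1 H φ hφ q'
  p2 : wπ (TT2 O H) (e2 H φ hφ q) = e2 H φ hφ q'
  t : wτ (TT2 O H) (e2 H φ hφ q) = wτ (TT1 O H) (e1 H φ hφ q) + (RX H φ hφ).dl H.N0 H.N0 q -
    (RX H φ hφ).dl H.N0 H.N0 q'

variable {O : Out w h} {H : Hyp W M w h i j} {φ : ℂ} {hφ : ∀ k, Complex.sin (ang φ k) ≠ 0}
  {q q' : EX W M w h i j}

theorem Pr.symm (P : Pr O H φ hφ q q') : Pr O H φ hφ q' q := by
  refine ⟨?_, ?_, ?_⟩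
  · rw [← P.p1]; exact wπ_wπ _ _
  · rw [← P.p2]; exact wπ_wπ _ _
  · have a1 : wτ (TT2 O H) (e2 H φ hφ q') = -wτ (TT2 O H) (e2 H φ hφ q) := by
      rw [← P.p2]; exact wτ_wπ _ _
    have a2 : wτ (TT1 O H) (e1 H φ hφ q') = -wτ (TT1 O H) (e1 H φ hφ q) := by
      rw [← P.p1]; exact wτ_wπ _ _
    rw [a1, a2, P.t]
    ring

theorem pr_of {p p' r r' : ℤ × ℤ} {d d' f f' : Dir} {c c' t1 t2 : ℤ}
    (A : At H φ hφ q p d r f c) (A' : At H φ hφ q' p' d' r' f' c')
    (K1 : WQ O H.i0 H.i1 p d p' d' t1) (K2 : WQ O H.j0 H.jh r f r' f' t2)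
    (e : t2 = t1 + c - c') : Pr O H φ hφ q q' := by
  obtain ⟨a1, a2⟩ := wire_of A.a A.b A'.a A'.b K1
  obtain ⟨b1, b2⟩ := wire_of A.a' A.b' A'.a' A'.b' K2
  refine ⟨a1, b1, ?_⟩
  rw [A.c, A'.c]
  change wτ (tilesJ O H.j0 H.jh) _ = wτ (tilesJ O H.i0 H.i1) _ + c - c'
  rw [b2, a2, e]

variable {x y x' y' : ℤ}

theorem at_oo (H : Hyp W M w h i j) (φ : ℂ) (hφ : ∀ k, Complex.sin (ang φ k) ≠ 0)
    (a : (x, y) ∈ PO w h i j) (d : Dir) :
    At H φ hφ (.o (⟨(x, y), a⟩, d)) (x, y) d (x, y) d 0 := at_o H φ hφ _ _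

theorem pr_EW (a : (x, y) ∈ PO w h i j) (b : (x', y') ∈ PO w h i j) (ex : x' = x + 1)
    (ey : y' = y) : Pr O H φ hφ (.o (⟨(x, y), a⟩, .E)) (.o (⟨(x', y'), b⟩, .W)) :=
  pr_of (at_oo H φ hφ _ _) (at_oo H φ hφ _ _) (q_EW ex ey) (q_EW ex ey) rfl

theorem pr_NS (a : (x, y) ∈ PO w h i j) (b : (x', y') ∈ PO w h i j) (ex : x' = x)
    (ey : y' = y + 1) : Pr O H φ hφ (.o (⟨(x, y), a⟩, .N)) (.o (⟨(x', y'), b⟩, .S)) :=
  pr_of (at_oo H φ hφ _ _) (at_oo H φ hφ _ _) (q_NS ex ey) (q_NS ex ey) rfl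

/-- A -/
theorem pr_Lj (a : (-1, j) ∈ PO w h i j) (jh : j < h) {t : Fin (M + W)} (ht : (t : ℕ) = 0) :
    Pr O H φ hφ (.f1 t) (.o (⟨(-1, j), a⟩, .W)) := by
  have h1 := H.i0
  have h2 := H.ij
  have h3 := H.M0
  have h4 := H.i2
  have h5 := H.j2
  exact pr_of (at_f1_lt H φ hφ (by omega)) (at_oo H φ hφ _ _)
    (q_Lout H.i2 rfl rfl H.j2 (by omega) H.ij jh) (q_Lmid H.j2 rfl rfl (by omega) rfl (by omega) jh)
    rfl

/-- B -/
theorem pr_P (a : (0, i - 2) ∈ PO w h i j) (hi : 2 ≤ i) {t : Fin (M + W)}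
    (ht : (t : ℕ) + 1 = M) : Pr O H φ hφ (.o (⟨(0, i - 2), a⟩, .W)) (.f1 t) := by
  have h1 := H.i0
  have h2 := H.ij
  have h3 := H.hM
  have h4 := H.i2
  have h5 := H.jh
  exact pr_of (at_oo H φ hφ _ _) (at_f1_lt H φ hφ (by omega))
    (q_Lmid H.i2 rfl rfl rfl (by omega) hi (by omega))
    (q_Llow rfl rfl (by omega) (by omega) (by omega) (by omega)) rfl

/-- C -/
theorem pr_PN (a : (x, i - 2) ∈ PO w h i j) {t : Fin (M + W)} (ht : (t : ℤ) = M + x)
    (hx : 0 ≤ x) : Pr O H φ hφ (.o (⟨(x, i - 2), a⟩, .N)) (.f1 t) :=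
  pr_of (at_oo H φ hφ _ _) (at_f1_ge H φ hφ (by omega)) (q_NS (by omega) (by omega))
    (q_NS (by omega) (by omega)) rfl

/-- D -/
theorem pr_u (a : (w, i - 2) ∈ PO w h i j) : Pr O H φ hφ .u (.o (⟨(w, i - 2), a⟩, .N)) :=
  pr_of (at_u H φ hφ) (at_oo H φ hφ _ _) (q_Tr H.i2 rfl rfl rfl rfl)
    (q_SN (by omega) (by omega)) (by norm_num)

/-- E -/
theorem pr_v (a : (-1, j) ∈ PO w h i j) : Pr O H φ hφ (.o (⟨(-1, j), a⟩, .S)) .v :=
  pr_of (at_oo H φ hφ _ _) (at_v H φ hφ) (q_SN (by omega) (by omega))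
    (q_Tl H.j2 rfl rfl rfl rfl) (by norm_num)

/-- F -/
theorem pr_PS (a : (x, j) ∈ PO w h i j) {t : Fin (M + W)} (ht : (t : ℤ) = M + (w - 1 - x))
    (hx : x < w) : Pr O H φ hφ (.f2 t) (.o (⟨(x, j), a⟩, .S)) :=
  pr_of (at_f2_ge H φ hφ (by omega)) (at_oo H φ hφ _ _) (q_NS (by omega) (by omega))
    (q_NS (by omega) (by omega)) rfl

/-- G -/
theorem pr_f1 {t t' : Fin (M + W)} (ht : (t : ℕ) % 2 = 1) (e : (t' : ℕ) = t + 1) (hM : (t' : ℕ) < M) :
    Pr O H φ hφ (.f1 t') (.f1 t) := by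
  have h1 := H.i0
  have h2 := H.ij
  have h3 := H.hM
  have h4 := H.i2
  have h5 := H.j2
  have h6 := H.jh
  exact pr_of (at_f1_lt H φ hφ hM) (at_f1_lt H φ hφ (by omega))
    (q_Lout H.i2 rfl rfl (by omega) (by omega) (by omega) (by omega))
    (q_Llow rfl rfl (by omega) (by omega) (by omega) (by omega)) rfl

/-- H -/
theorem pr_f1' (hi : i = 0) {t t' : Fin (M + W)} (ht : ((t : ℤ) - M) % 2 = 0) (e : (t' : ℕ) = t + 1)
    (hM : M ≤ (t : ℕ)) : Pr O H φ hφ (.f1 t) (.f1 t') := by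
  have h1 := H.hW
  have h2 := t.2
  exact pr_of (at_f1_ge H φ hφ (by omega)) (at_f1_ge H φ hφ (by omega))
    (q_Fcap ht (by omega) (by omega) (by omega) (by omega) (by omega))
    (q_Fcap ht (by omega) (by omega) (by omega) (by omega) (by omega)) rfl

/-- I -/
theorem pr_f2 {t t' : Fin (M + W)} (ht : (t : ℕ) % 2 = 0) (e : (t' : ℕ) = t + 1)
    (hM : (t' : ℕ) < M) : Pr O H φ hφ (.f2 t') (.f2 t) := by
  have h1 := H.i0
  have h2 := H.ij
  have h3 := H.hM
  have h4 := H.i2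
  have h5 := H.j2
  have h6 := H.jh
  exact pr_of (at_f2_lt H φ hφ hM) (at_f2_lt H φ hφ (by omega))
    (q_Rup rfl rfl (by omega) (by omega) (by omega) (by omega))
    (q_Rout rfl rfl (by omega) (by omega) (by omega) (by omega)) rfl

/-- J -/
theorem pr_f2' (hj : j = h) {t t' : Fin (M + W)} (ht : (w - 1 - ((t : ℤ) - M)) % 2 = 0)
    (e : (t' : ℕ) = t + 1) (hM : M ≤ (t : ℕ)) : Pr O H φ hφ (.f2 t) (.f2 t') := by
  have h1 := H.hW
  have h2 := t'.2
  exact pr_of (at_f2_ge H φ hφ (by omega)) (at_f2_ge H φ hφ (by omega))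
    (q_Ccap ht (by omega) (by omega) (by omega) (by omega) (by omega))
    (q_Ccap ht (by omega) (by omega) (by omega) (by omega) (by omega)) rfl

/-- K -/
theorem pr_f2v (hj : j = h) {t : Fin (M + W)} (ht : (t : ℕ) + 1 = M + W) :
    Pr O H φ hφ (.f2 t) .v := by
  have h1 := H.hW
  have h2 := H.ij
  have h3 := H.W0
  exact pr_of (at_f2_ge H φ hφ (by omega)) (at_v H φ hφ)
    (q_C0 (by omega) rfl (by omega) (by omega) (by omega))
    (q_C0' (by omega) rfl (by omega) (by omega) hj) (by norm_num)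

/-! ### Outer wires -/

theorem ext_NW (a : j < h) : qExt w h j (he (-2, h)) = ((-1, h - 1), .W) ∧
    tExt h j (he (-2, h)) = -1 := by
  unfold qExt tExt qNW
  rw [if_pos rfl, if_pos rfl, if_pos a]
  exact ⟨rfl, rfl⟩

theorem ext_NW' (a : j = h) : qExt w h j (he (-2, h)) = ((0, h - 2), .W) ∧
    tExt h j (he (-2, h)) = -1 := by
  unfold qExt tExt qNW
  rw [if_pos rfl, if_pos rfl, if_neg (by omega)]
  exact ⟨rfl, rfl⟩

theorem ext_SE (a : 2 ≤ j) : qExt w h j (ve (w + 1, -2)) = ((w, -1), .S) ∧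
    tExt h j (ve (w + 1, -2)) = 1 := by
  unfold qExt tExt qSE
  rw [if_neg (ve_ne_he _ _), if_neg (ve_ne_he _ _), if_pos a, if_pos a]
  exact ⟨rfl, rfl⟩

theorem ext_SE' (a : ¬ 2 ≤ j) : qExt w h j (ve (w + 1, -2)) = ((w - 1, -1), .E) ∧
    tExt h j (ve (w + 1, -2)) = 0 := by
  unfold qExt tExt qSE
  rw [if_neg (ve_ne_he _ _), if_neg (ve_ne_he _ _), if_neg a, if_neg a]
  exact ⟨rfl, rfl⟩

theorem ent_SW (a : 2 ≤ j) : qEnt w h j (ve (-1, -2)) = ((0, -1), .W) := by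
  unfold qEnt qSW
  rw [if_pos rfl, if_pos a]

theorem ent_SW' (a : ¬ 2 ≤ j) : qEnt w h j (ve (-1, -2)) = ((-1, 0), .W) := by
  unfold qEnt qSW
  rw [if_pos rfl, if_neg a]

theorem ent_NE : qEnt w h j (he (w + 1, h)) = ((w - 1, h - 1), .N) := by
  unfold qEnt
  rw [if_neg (fun e => ve_ne_he _ _ e.symm)]

/-- exit ends -/
theorem at_ext (H : Hyp W M w h i j) (φ : ℂ) (hφ : ∀ k, Complex.sin (ang φ k) ≠ 0) {a : ℤ × ℤ}
    (ha : IsExt w h a) : ∃ q, At H φ hφ q (qExt w h i a).1 (qExt w h i a).2 (qExt w h j a).1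
      (qExt w h j a).2 (tExt h j a - tExt h i a) := by
  have h1 := H.i0
  have h2 := H.ij
  have h3 := H.hM
  have h4 := H.i2
  have h5 := H.j2
  have h6 := H.jh
  have h7 := H.h2
  have h8 := H.N0
  rcases ha with rfl | rfl
  · obtain ⟨a1, a2⟩ := ext_NW (w := w) (show i < h by omega)
    by_cases hj : j < h
    · obtain ⟨b1, b2⟩ := ext_NW (w := w) hj
      refine ⟨.o (⟨(-1, h - 1), (mem_PO H).2 (by simp only [true_and]; omega)⟩, .W), ?_⟩
      rw [a1, b1, a2, b2]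
      exact at_oo H φ hφ _ _
    · obtain ⟨b1, b2⟩ := ext_NW' (w := w) (show j = h by omega)
      have := at_f1_lt H φ hφ (t := ⟨0, h8⟩) H.M0
      refine ⟨.f1 ⟨0, h8⟩, ?_⟩
      rw [a1, b1, a2, b2]
      have e1 : j - 1 - ((0 : ℕ) : ℤ) = h - 1 := by omega
      have e2 : j - 2 - ((0 : ℕ) : ℤ) = h - 2 := by omega
      rw [e1, e2] at this
      exact this
  · obtain ⟨b1, b2⟩ := ext_SE (w := w) (h := h) (show 2 ≤ j by omega)
    by_cases hi : 2 ≤ i
    · obtain ⟨a1, a2⟩ := ext_SE (w := w) (h := h) hi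
      refine ⟨.o (⟨(w, -1), (mem_PO H).2 (by simp only [true_and]; omega)⟩, .S), ?_⟩
      rw [a1, b1, a2, b2]
      exact at_oo H φ hφ _ _
    · obtain ⟨a1, a2⟩ := ext_SE' (w := w) (h := h) hi
      refine ⟨.u, ?_⟩
      rw [a1, b1, a2, b2]
      have := at_u H φ hφ
      have e1 : i - 1 = -1 := by omega
      rw [e1] at this
      exact this

/-- entry ends -/
theorem at_ent (H : Hyp W M w h i j) (φ : ℂ) (hφ : ∀ k, Complex.sin (ang φ k) ≠ 0) {a : ℤ × ℤ}
    (ha : IsEnt w h a) : ∃ q, At H φ hφ q (qEnt w h i a).1 (qEnt w h i a).2 (qEnt w h j a).1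
      (qEnt w h j a).2 0 := by
  have h1 := H.i0
  have h2 := H.ij
  have h3 := H.hM
  have h4 := H.i2
  have h5 := H.j2
  have h6 := H.jh
  have h7 := H.h2
  have h8 := H.N0
  have h9 := H.w0
  have hM := H.M0
  have hW := H.W0
  rcases ha with rfl | rfl
  · have b1 := ent_SW (w := w) (h := h) (show 2 ≤ j by omega)
    by_cases hi : 2 ≤ i
    · have a1 := ent_SW (w := w) (h := h) hi
      refine ⟨.o (⟨(0, -1), (mem_PO H).2 (by simp only; omega)⟩, .W), ?_⟩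
      rw [a1, b1]
      exact at_oo H φ hφ _ _
    · have a1 := ent_SW' (w := w) (h := h) hi
      have := at_f1_lt H φ hφ (t := ⟨M - 1, by omega⟩) (by simp only; omega)
      refine ⟨.f1 ⟨M - 1, by omega⟩, ?_⟩
      rw [a1, b1]
      have e1 : j - 1 - ((M - 1 : ℕ) : ℤ) = 0 := by omega
      have e2 : j - 2 - ((M - 1 : ℕ) : ℤ) = -1 := by omega
      rw [e1, e2] at this
      exact this
  · have a1 := ent_NE (w := w) (h := h) (j := i)
    have b1 := ent_NE (w := w) (h := h) (j := j)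
    by_cases hj : j < h
    · refine ⟨.o (⟨(w - 1, h - 1), (mem_PO H).2 (by simp only; omega)⟩, .N), ?_⟩
      rw [a1, b1]
      exact at_oo H φ hφ _ _
    · have := at_f2_ge H φ hφ (t := ⟨M, by omega⟩) (by simp only; omega)
      refine ⟨.f2 ⟨M, by omega⟩, ?_⟩
      rw [a1, b1]
      have e1 : w - 1 - (((M : ℕ) : ℤ) - (M : ℤ)) = w - 1 := by omega
      have e2 : j - 1 = h - 1 := by omega
      rw [e1, e2] at this
      exact this

theorem e1_inj (H : Hyp W M w h i j) (φ : ℂ) (hφ : ∀ k, Complex.sin (ang φ k) ≠ 0) :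
    Function.Injective (e1 H φ hφ) := Rgn.E1_inj _ _ _ _

/-- two exposed ends with the same place are equal -/
theorem At.eq {p p' r r' : ℤ × ℤ} {d d' f f' : Dir} {c c' : ℤ} (A : At H φ hφ q p d r f c)
    (A' : At H φ hφ q' p' d' r' f' c') (e : p = p') (e' : d = d') : q = q' := by
  apply e1_inj H φ hφ
  apply Prod.ext
  · exact Subtype.ext (A.a.trans (e.trans A'.a.symm))
  · exact A.b.trans (e'.trans A'.b.symm)

/-- the outer wires -/
theorem outer_pr (O : Out w h) (H : Hyp W M w h i j) (φ : ℂ)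
    (hφ : ∀ k, Complex.sin (ang φ k) ≠ 0) : ∃ σ : ℤ × ℤ → ℤ × ℤ, (∀ a, IsExt w h a →
      IsEnt w h (σ a)) ∧ (∀ b, IsEnt w h b → ∃ a, IsExt w h a ∧ σ a = b) ∧
    ∀ a, IsExt w h a → ∀ {q q' : EX W M w h i j},
      At H φ hφ q (qExt w h i a).1 (qExt w h i a).2 (qExt w h j a).1 (qExt w h j a).2
        (tExt h j a - tExt h i a) →
      At H φ hφ q' (qEnt w h i (σ a)).1 (qEnt w h i (σ a)).2 (qEnt w h j (σ a)).1
        (qEnt w h j (σ a)).2 0 → Pr O H φ hφ q q' := by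
  obtain ⟨σ, τ, hσ⟩ := outer_isW O
  have K : ∀ a, IsExt w h a → ∀ {q q' : EX W M w h i j},
      At H φ hφ q (qExt w h i a).1 (qExt w h i a).2 (qExt w h j a).1 (qExt w h j a).2
        (tExt h j a - tExt h i a) →
      At H φ hφ q' (qEnt w h i (σ a)).1 (qEnt w h i (σ a)).2 (qEnt w h j (σ a)).1
        (qEnt w h j (σ a)).2 0 → Pr O H φ hφ q q' := by
    intro a ha q q' A A'
    refine pr_of (t1 := tExt h i a + τ a) (t2 := tExt h j a + τ a) A A' ?_ ?_ (by ring)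
    · intro u v
      exact (hσ a ha).2 i H.i0 H.i1 H.i2
    · intro u v
      exact (hσ a ha).2 j H.j0 H.jh H.j2
  refine ⟨σ, fun a ha => (hσ a ha).1, ?_, K⟩
  -- the two exits have different entries
  have hne : σ (he (-2, h)) ≠ σ (ve (w + 1, -2)) := by
    intro e
    have x1 : IsExt w h (he (-2, h)) := Or.inl rfl
    have x2 : IsExt w h (ve (w + 1, -2)) := Or.inr rfl
    obtain ⟨q1, A1⟩ := at_ext H φ hφ x1
    obtain ⟨q2, A2⟩ := at_ext H φ hφ x2
    obtain ⟨q3, A3⟩ := at_ent H φ hφ (hσ _ x1).1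
    have P1 := K _ x1 A1 A3
    rw [e] at A3
    have P2 := K _ x2 A2 A3
    have e3 : e1 H φ hφ q1 = e1 H φ hφ q2 := by
      rw [← P1.symm.p1, ← P2.symm.p1]
    have e4 := A1.b
    rw [e3, A2.b] at e4
    have : (qExt w h i (he (-2, h))).2 = .W := by
      unfold qExt; rw [if_pos rfl]
    rw [this] at e4
    by_cases hi : 2 ≤ i
    · rw [(ext_SE hi).1] at e4
      exact absurd e4 (by simp)
    · rw [(ext_SE' hi).1] at e4
      exact absurd e4 (by simp)
  intro b hb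
  have x1 := (hσ (he (-2, h)) (Or.inl rfl)).1
  have x2 := (hσ (ve (w + 1, -2)) (Or.inr rfl)).1
  by_cases g1 : σ (he (-2, h)) = b
  · exact ⟨_, Or.inl rfl, g1⟩
  by_cases g2 : σ (ve (w + 1, -2)) = b
  · exact ⟨_, Or.inr rfl, g2⟩
  exfalso
  apply hne
  rcases hb with rfl | rfl <;> rcases x1 with x1 | x1 <;> rcases x2 with x2 | x2
  · exact absurd x1 g1
  · exact absurd x1 g1
  · exact absurd x2 g2
  · rw [x1, x2]
  · rw [x1, x2]
  · exact absurd x2 g2
  · exact absurd x1 g1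
  · exact absurd x1 g1

theorem pr_exit {a : ℤ × ℤ} (ha : IsExt w h a) {p r : ℤ × ℤ} {d f : Dir} {c : ℤ}
    (A : At H φ hφ q p d r f c) (e1 : qExt w h i a = (p, d)) : ∃ q', Pr O H φ hφ q q' := by
  obtain ⟨σ, s1, s2, K⟩ := outer_pr O H φ hφ
  obtain ⟨q1, A1⟩ := at_ext H φ hφ ha
  obtain ⟨q', A'⟩ := at_ent H φ hφ (s1 a ha)
  have := A.eq A1 (by rw [e1]) (by rw [e1])
  subst this
  exact ⟨q', K a ha A1 A'⟩

theorem pr_entry {b : ℤ × ℤ} (hb : IsEnt w h b) {p r : ℤ × ℤ} {d f : Dir} {c : ℤ}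
    (A : At H φ hφ q p d r f c) (e1 : qEnt w h i b = (p, d)) : ∃ q', Pr O H φ hφ q q' := by
  obtain ⟨σ, s1, s2, K⟩ := outer_pr O H φ hφ
  obtain ⟨a, ha, rfl⟩ := s2 b hb
  obtain ⟨q1, A1⟩ := at_ext H φ hφ ha
  obtain ⟨q', A'⟩ := at_ent H φ hφ hb
  have := A.eq A' (by rw [e1]) (by rw [e1])
  subst this
  exact ⟨q1, (K a ha A1 A').symm⟩

/-! ### All the pairs -/

theorem ex_o (O : Out w h) (H : Hyp W M w h i j) (φ : ℂ) (hφ : ∀ k, Complex.sin (ang φ k) ≠ 0)
    (x y : ℤ) (a : (x, y) ∈ PO w h i j) (d : Dir) :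
    ∃ q', Pr O H φ hφ (.o (⟨(x, y), a⟩, d)) q' := by
  have hW := H.hW
  have hM := H.hM
  have w0 := H.w0
  have w2 := H.w2
  have i0 := H.i0
  have i2 := H.i2
  have ij := H.ij
  have j2 := H.j2
  have jh := H.jh
  have h2 := H.h2
  have W0 := H.W0
  have M0 := H.M0
  have ha := (mem_PO H).1 a
  simp only at ha
  have mem : ∀ {x y : ℤ}, ((0 ≤ x ∧ x < w ∧ j ≤ y ∧ y < h) ∨ (0 ≤ x ∧ x < w ∧ -1 ≤ y ∧ y < i - 1) ∨
      (x = -1 ∧ j ≤ y ∧ y < h) ∨ (x = w ∧ -1 ≤ y ∧ y < i - 1)) → (x, y) ∈ PO w h i j :=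
    fun h => (mem_PO H).2 h
  cases d
  · -- W
    by_cases c1 : (0 ≤ x ∧ x < w ∧ j ≤ y) ∨ (0 < x)
    · exact ⟨_, (pr_EW (mem (x := x - 1) (y := y) (by omega)) a (by omega) rfl).symm⟩
    by_cases c2 : x = 0
    · subst c2
      by_cases c3 : y = -1
      · subst c3
        exact pr_entry (b := ve (-1, -2)) (Or.inl rfl) (at_oo H φ hφ _ _) (ent_SW (by omega))
      by_cases c4 : y = i - 2
      · subst c4
        exact ⟨_, pr_P a (by omega) (t := ⟨M - 1, by omega⟩) (by simp only; omega)⟩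
      rcases Int.emod_two_eq_zero_or_one y with c5 | c5
      · exact ⟨.o (⟨(0, y + 1), mem (by omega)⟩, .W), pr_of (at_oo H φ hφ _ _) (at_oo H φ hφ _ _)
          (q_Llow rfl rfl c5 rfl (by omega) (by omega))
          (q_Llow rfl rfl c5 rfl (by omega) (by omega)) rfl⟩
      · exact ⟨.o (⟨(0, y - 1), mem (by omega)⟩, .W), (pr_of (at_oo H φ hφ _ _) (at_oo H φ hφ _ _)
          (q_Llow rfl rfl (by omega) (by omega) (by omega) (by omega))
          (q_Llow rfl rfl (by omega) (by omega) (by omega) (by omega)) rfl).symm⟩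
    · have c3 : x = -1 := by omega
      subst c3
      by_cases c4 : y = h - 1
      · subst c4
        exact pr_exit (a := he (-2, h)) (Or.inl rfl) (at_oo H φ hφ _ _) (ext_NW (by omega)).1
      by_cases c5 : y = j
      · subst c5
        exact ⟨_, (pr_Lj a (by omega) (t := ⟨0, H.N0⟩) rfl).symm⟩
      rcases Int.emod_two_eq_zero_or_one y with c6 | c6
      · exact ⟨.o (⟨(-1, y - 1), mem (by omega)⟩, .W), (pr_of (at_oo H φ hφ _ _) (at_oo H φ hφ _ _)
          (q_Lout i2 rfl rfl c6 rfl (by omega) (by omega))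
          (q_Lout j2 rfl rfl c6 rfl (by omega) (by omega)) rfl).symm⟩
      · exact ⟨.o (⟨(-1, y + 1), mem (by omega)⟩, .W), pr_of (at_oo H φ hφ _ _) (at_oo H φ hφ _ _)
          (q_Lout i2 rfl rfl (by omega) (by omega) (by omega) (by omega))
          (q_Lout j2 rfl rfl (by omega) (by omega) (by omega) (by omega)) rfl⟩
  · -- N
    by_cases c1 : y < h - 1 ∧ y ≠ i - 2
    · exact ⟨_, pr_NS a (mem (x := x) (y := y + 1) (by omega)) rfl rfl⟩
    by_cases c2 : y = i - 2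
    · subst c2
      by_cases c3 : x = w
      · subst c3
        exact ⟨_, (pr_u a).symm⟩
      · exact ⟨_, pr_PN a (t := ⟨M + x.toNat, by omega⟩) (by simp only; omega) (by omega)⟩
    · have c3 : y = h - 1 := by omega
      subst c3
      by_cases c4 : x = -1
      · subst c4
        exact ⟨.o (⟨(0, h - 1), mem (by omega)⟩, .N), (pr_of (at_oo H φ hφ _ _) (at_oo H φ hφ _ _)
          (q_C0 rfl rfl rfl rfl (by omega)) (q_C0 rfl rfl rfl rfl (by omega)) rfl).symm⟩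
      by_cases c5 : x = 0
      · subst c5
        exact ⟨.o (⟨(-1, h - 1), mem (by omega)⟩, .N), pr_of (at_oo H φ hφ _ _) (at_oo H φ hφ _ _)
          (q_C0 rfl rfl rfl rfl (by omega)) (q_C0 rfl rfl rfl rfl (by omega)) rfl⟩
      by_cases c6 : x = w - 1
      · subst c6
        exact pr_entry (b := he (w + 1, h)) (Or.inr rfl) (at_oo H φ hφ _ _) ent_NE
      rcases Int.emod_two_eq_zero_or_one x with c7 | c7
      · exact ⟨.o (⟨(x - 1, h - 1), mem (by omega)⟩, .N), pr_of (at_oo H φ hφ _ _) (at_oo H φ hφ _ _)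
          (q_Ccap c7 rfl rfl rfl (by omega) (by omega))
          (q_Ccap c7 rfl rfl rfl (by omega) (by omega)) rfl⟩
      · exact ⟨.o (⟨(x + 1, h - 1), mem (by omega)⟩, .N),
          (pr_of (at_oo H φ hφ _ _) (at_oo H φ hφ _ _)
            (q_Ccap (by omega) (by omega) rfl rfl (by omega) (by omega))
            (q_Ccap (by omega) (by omega) rfl rfl (by omega) (by omega)) rfl).symm⟩
  · -- E
    by_cases c1 : x < w - 1 ∨ (x = w - 1 ∧ y < i - 1)
    · exact ⟨_, pr_EW a (mem (x := x + 1) (y := y) (by omega)) rfl rfl⟩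
    by_cases c2 : x = w - 1
    · subst c2
      rcases Int.emod_two_eq_zero_or_one y with c3 | c3
      · exact ⟨.o (⟨(w - 1, y + 1), mem (by omega)⟩, .E), (pr_of (at_oo H φ hφ _ _)
          (at_oo H φ hφ _ _) (q_Rup rfl rfl c3 rfl (by omega) (by omega))
          (q_Rup rfl rfl c3 rfl (by omega) (by omega)) rfl).symm⟩
      · exact ⟨.o (⟨(w - 1, y - 1), mem (by omega)⟩, .E), pr_of (at_oo H φ hφ _ _)
          (at_oo H φ hφ _ _) (q_Rup rfl rfl (by omega) (by omega) (by omega) (by omega))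
          (q_Rup rfl rfl (by omega) (by omega) (by omega) (by omega)) rfl⟩
    · have c3 : x = w := by omega
      subst c3
      rcases Int.emod_two_eq_zero_or_one y with c4 | c4
      · exact ⟨.o (⟨(x, y - 1), mem (by omega)⟩, .E), pr_of (at_oo H φ hφ _ _)
          (at_oo H φ hφ _ _) (q_Rout rfl rfl c4 rfl (by omega) (by omega))
          (q_Rout rfl rfl c4 rfl (by omega) (by omega)) rfl⟩
      · exact ⟨.o (⟨(x, y + 1), mem (by omega)⟩, .E), (pr_of (at_oo H φ hφ _ _)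
          (at_oo H φ hφ _ _) (q_Rout rfl rfl (by omega) (by omega) (by omega) (by omega))
          (q_Rout rfl rfl (by omega) (by omega) (by omega) (by omega)) rfl).symm⟩
  · -- S
    by_cases c1 : y ≠ j ∧ y ≠ -1
    · exact ⟨_, (pr_NS (mem (x := x) (y := y - 1) (by omega)) a rfl (by omega)).symm⟩
    by_cases c2 : y = j
    · subst c2
      by_cases c3 : x = -1
      · subst c3
        exact ⟨_, pr_v a⟩
      · exact ⟨_, (pr_PS a (t := ⟨M + (w - 1 - x).toNat, by omega⟩) (by simp only; omega)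
          (by omega)).symm⟩
    · have c3 : y = -1 := by omega
      subst c3
      by_cases c4 : x = w
      · subst c4
        exact pr_exit (a := ve (x + 1, -2)) (Or.inr rfl) (at_oo H φ hφ _ _) (ext_SE (by omega)).1
      rcases Int.emod_two_eq_zero_or_one x with c5 | c5
      · exact ⟨.o (⟨(x + 1, -1), mem (by omega)⟩, .S), pr_of (at_oo H φ hφ _ _)
          (at_oo H φ hφ _ _) (q_Fcap c5 rfl rfl rfl (by omega) (by omega))
          (q_Fcap c5 rfl rfl rfl (by omega) (by omega)) rfl⟩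
      · exact ⟨.o (⟨(x - 1, -1), mem (by omega)⟩, .S), (pr_of (at_oo H φ hφ _ _)
          (at_oo H φ hφ _ _) (q_Fcap (by omega) (by omega) rfl rfl (by omega) (by omega))
          (q_Fcap (by omega) (by omega) rfl rfl (by omega) (by omega)) rfl).symm⟩

/-- **The wires between the exposed ends.** -/
theorem ex_pr (O : Out w h) (H : Hyp W M w h i j) (φ : ℂ) (hφ : ∀ k, Complex.sin (ang φ k) ≠ 0)
    (q : EX W M w h i j) : ∃ q', Pr O H φ hφ q q' := by
  have hW := H.hW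
  have hM := H.hM
  have w0 := H.w0
  have w2 := H.w2
  have i0 := H.i0
  have i2 := H.i2
  have ij := H.ij
  have j2 := H.j2
  have jh := H.jh
  have h2 := H.h2
  have W0 := H.W0
  have M0 := H.M0
  have mem : ∀ {x y : ℤ}, ((0 ≤ x ∧ x < w ∧ j ≤ y ∧ y < h) ∨ (0 ≤ x ∧ x < w ∧ -1 ≤ y ∧ y < i - 1) ∨
      (x = -1 ∧ j ≤ y ∧ y < h) ∨ (x = w ∧ -1 ≤ y ∧ y < i - 1)) → (x, y) ∈ PO w h i j :=
    fun h => (mem_PO H).2 h
  rcases q with t | t | ⟨⟨⟨x, y⟩, a⟩, d⟩ | _ | _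
  · have ht := t.2
    by_cases c1 : (t : ℕ) < M
    · by_cases c2 : (t : ℕ) = 0
      · by_cases c3 : j < h
        · exact ⟨_, pr_Lj (mem (by omega)) c3 c2⟩
        · refine pr_exit (a := he (-2, h)) (Or.inl rfl) (at_f1_lt H φ hφ c1) ?_
          rw [(ext_NW (by omega)).1, c2]
          simp only [Prod.mk.injEq, true_and, and_true]
          omega
      rcases Nat.mod_two_eq_zero_or_one t with c3 | c3
      · exact ⟨_, pr_f1 (t := ⟨(t : ℕ) - 1, by omega⟩) (t' := t) (by simp only; omega)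
          (by simp only; omega) c1⟩
      by_cases c4 : (t : ℕ) + 1 = M
      · by_cases c5 : 2 ≤ i
        · exact ⟨_, (pr_P (mem (by omega)) c5 c4).symm⟩
        · refine pr_entry (b := ve (-1, -2)) (Or.inl rfl) (at_f1_lt H φ hφ c1) ?_
          rw [ent_SW' c5]
          simp only [Prod.mk.injEq, true_and, and_true]
          omega
      · exact ⟨_, (pr_f1 (t := t) (t' := ⟨(t : ℕ) + 1, by omega⟩) c3 rfl (by simp only; omega)).symm⟩
    · by_cases c2 : 2 ≤ i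
      · exact ⟨_, (pr_PN (x := (t : ℤ) - M) (mem (by omega)) (t := t) (by omega) (by omega)).symm⟩
      rcases Int.emod_two_eq_zero_or_one ((t : ℤ) - M) with c3 | c3
      · exact ⟨_, pr_f1' (by omega) (t := t) (t' := ⟨(t : ℕ) + 1, by omega⟩) c3 rfl (by omega)⟩
      · exact ⟨_, (pr_f1' (by omega) (t := ⟨(t : ℕ) - 1, by omega⟩) (t' := t)
          (by simp only; omega) (by simp only; omega) (by simp only; omega)).symm⟩
  · have ht := t.2
    by_cases c1 : (t : ℕ) < M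
    · rcases Nat.mod_two_eq_zero_or_one t with c3 | c3
      · exact ⟨_, (pr_f2 (t := t) (t' := ⟨(t : ℕ) + 1, by omega⟩) c3 rfl (by simp only; omega)).symm⟩
      · exact ⟨_, pr_f2 (t := ⟨(t : ℕ) - 1, by omega⟩) (t' := t) (by simp only; omega)
          (by simp only; omega) c1⟩
    · by_cases c2 : j < h
      · exact ⟨_, pr_PS (x := w - 1 - ((t : ℤ) - M)) (mem (by omega)) (t := t) (by omega)
          (by omega)⟩
      by_cases c3 : (t : ℕ) = M
      · refine pr_entry (b := he (w + 1, h)) (Or.inr rfl) (at_f2_ge H φ hφ c1) ?_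
        rw [ent_NE, c3]
        simp only [Prod.mk.injEq, true_and, and_true]
        omega
      by_cases c4 : (t : ℕ) + 1 = M + W
      · exact ⟨_, pr_f2v (by omega) c4⟩
      rcases Int.emod_two_eq_zero_or_one (w - 1 - ((t : ℤ) - M)) with c5 | c5
      · exact ⟨_, pr_f2' (by omega) (t := t) (t' := ⟨(t : ℕ) + 1, by omega⟩) c5 rfl (by omega)⟩
      · exact ⟨_, (pr_f2' (by omega) (t := ⟨(t : ℕ) - 1, by omega⟩) (t' := t)
          (by simp only; omega) (by simp only; omega) (by simp only; omega)).symm⟩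
  · exact ex_o O H φ hφ x y a d
  · by_cases c1 : 2 ≤ i
    · exact ⟨_, pr_u (mem (by simp only [true_and]; omega))⟩
    · refine pr_exit (a := ve (w + 1, -2)) (Or.inr rfl) (at_u H φ hφ) ?_
      rw [(ext_SE' c1).1]
      simp only [Prod.mk.injEq, true_and, and_true]
      omega
  · by_cases c1 : j < h
    · exact ⟨_, (pr_v (mem (by omega))).symm⟩
    · exact ⟨_, (pr_f2v (by omega) (t := ⟨M + W - 1, by omega⟩) (by simp only; omega)).symm⟩

end Pool.Agent.H64.R45
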