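import Pool.Agent.H64.Q1.Reg12
import Pool.Agent.H74.R45.List

/-!
# Positions of the tiles: two environments number `i < j` of a rectangle and a moved rectangle

`W`, `M` : width and height of the moved rectangle `[0,w) × [i, j)` of the environment number `i`; in the
environment number `j` it is `[0,w) × [i-1, j-1)`.
-/

namespace Pool.Agent.H64.R45

open Pool.Agent.H64.Q1 hiding Tl
open LP Pool.Agent.H81.G1 Pool.Agent.H13.Q1 Pool.Agent.Q1 Pool.Agent.H33.Q1
open Pool.Agent.H75.Perc Pool.Agent.H75.TwoArm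
open Pool.Agent.H74.R45 hiding Tl

/-- tiles of the environment number `j` -/
abbrev TJ (w h j : ℤ) : Type := Pool.Agent.H74.R45.Tl w h j

/-- the numbers -/
structure Hyp (W M : ℕ) (w h i j : ℤ) : Prop where
  hW : w = W
  hM : j = i + M
  w0 : 2 ≤ w
  w2 : w % 2 = 0
  i0 : 0 ≤ i
  i2 : i % 2 = 0
  ij : i < j
  j2 : j % 2 = 0
  jh : j ≤ h
  h2 : h % 2 = 0

/-- positions of the tiles which do not move -/
noncomputable def PO (w h i j : ℤ) : Finset (ℤ × ℤ) :=
  (PJ w h j).filter fun q => j ≤ q.2 ∨ q.2 < i - 1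

/-- the tiles which do not move -/
abbrev OT (w h i j : ℤ) : Type := {q : ℤ × ℤ // q ∈ PO w h i j}

variable {W M : ℕ} {w h i j : ℤ}

theorem mem_PO (H : Hyp W M w h i j) {q : ℤ × ℤ} : q ∈ PO w h i j ↔
    (0 ≤ q.1 ∧ q.1 < w ∧ j ≤ q.2 ∧ q.2 < h) ∨ (0 ≤ q.1 ∧ q.1 < w ∧ -1 ≤ q.2 ∧ q.2 < i - 1) ∨
      (q.1 = -1 ∧ j ≤ q.2 ∧ q.2 < h) ∨ (q.1 = w ∧ -1 ≤ q.2 ∧ q.2 < i - 1) := by
  have := H.ij
  have := H.i0
  have := H.jh
  unfold PO
  rw [Finset.mem_filter, mem_PJ]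
  omega

/-- position in the environment number `i` -/
def pos1 (W M : ℕ) (w h i j : ℤ) : RQ W M ⊕ OT w h i j ⊕ Fin (M + W) → ℤ × ℤ
  | .inl p => ((p.1.1 : ℤ), i + p.1.2)
  | .inr (.inl q) => q.1
  | .inr (.inr t) => if (t : ℕ) < M then (-1, j - 1 - t) else ((t : ℤ) - M, i - 1)

/-- position in the environment number `j` -/
def pos2 (W M : ℕ) (w h i j : ℤ) : RQ W M ⊕ OT w h i j ⊕ Fin (M + W) → ℤ × ℤ
  | .inl p => ((p.1.1 : ℤ), i - 1 + p.1.2)
  | .inr (.inl q) => q.1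
  | .inr (.inr t) => if (t : ℕ) < M then (w, i - 1 + t) else (w - 1 - ((t : ℤ) - M), j - 1)

theorem pos1_mem (H : Hyp W M w h i j) (x : RQ W M ⊕ OT w h i j ⊕ Fin (M + W)) :
    pos1 W M w h i j x ∈ PJ w h i := by
  obtain ⟨hW, hM, w0, w2, i0, i2, ij, j2, jh, h2⟩ := H
  rcases x with ⟨⟨a, b⟩, ha, hb⟩ | q | t
  · simp only at ha hb
    rw [mem_PJ]
    simp only [pos1]
    omega
  · have := (mem_PO ⟨hW, hM, w0, w2, i0, i2, ij, j2, jh, h2⟩).1 q.2
    rw [mem_PJ]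
    simp only [pos1]
    omega
  · have := t.2
    rw [mem_PJ]
    simp only [pos1]
    split_ifs <;> simp only [true_and] <;> omega

theorem pos2_mem (H : Hyp W M w h i j) (x : RQ W M ⊕ OT w h i j ⊕ Fin (M + W)) :
    pos2 W M w h i j x ∈ PJ w h j := by
  obtain ⟨hW, hM, w0, w2, i0, i2, ij, j2, jh, h2⟩ := H
  rcases x with ⟨⟨a, b⟩, ha, hb⟩ | q | t
  · simp only at ha hb
    rw [mem_PJ]
    simp only [pos2]
    omega
  · have := (mem_PO ⟨hW, hM, w0, w2, i0, i2, ij, j2, jh, h2⟩).1 q.2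
    rw [mem_PJ]
    simp only [pos2]
    omega
  · have := t.2
    rw [mem_PJ]
    simp only [pos2]
    split_ifs <;> simp only [true_and] <;> omega

theorem pos1_inj (H : Hyp W M w h i j) : Function.Injective (pos1 W M w h i j) := by
  obtain ⟨hW, hM, w0, w2, i0, i2, ij, j2, jh, h2⟩ := H
  have H : Hyp W M w h i j := ⟨hW, hM, w0, w2, i0, i2, ij, j2, jh, h2⟩
  rintro (⟨⟨a, b⟩, ha, hb⟩ | ⟨⟨x, y⟩, hq⟩ | t) (⟨⟨a', b'⟩, ha', hb'⟩ | ⟨⟨x', y'⟩, hq'⟩ | t') e
  · simp only [pos1, Prod.mk.injEq] at e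
    simp only [Sum.inl.injEq, Subtype.mk.injEq, Prod.mk.injEq]
    omega
  · have := (mem_PO H).1 hq'
    simp only [pos1, Prod.mk.injEq] at e this ha hb
    omega
  · have := t'.2
    simp only [pos1] at e ha hb
    split_ifs at e <;> simp only [Prod.mk.injEq] at e <;> omega
  · have := (mem_PO H).1 hq
    simp only [pos1, Prod.mk.injEq] at e this ha' hb'
    omega
  · simp only [pos1, Prod.mk.injEq] at e
    obtain ⟨rfl, rfl⟩ := e
    rfl
  · have := (mem_PO H).1 hq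
    have := t'.2
    simp only [pos1] at e this
    split_ifs at e <;> simp only [Prod.mk.injEq] at e <;> omega
  · have := t.2
    simp only [pos1] at e ha' hb'
    split_ifs at e <;> simp only [Prod.mk.injEq] at e <;> omega
  · have := (mem_PO H).1 hq'
    have := t.2
    simp only [pos1] at e this
    split_ifs at e <;> simp only [Prod.mk.injEq] at e <;> omega
  · have h3 := t.2
    have h4 := t'.2
    have : (t : ℕ) = t' := by
      simp only [pos1] at e
      split_ifs at e <;> simp only [Prod.mk.injEq] at e <;> omega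
    rw [Fin.ext this]

theorem pos2_inj (H : Hyp W M w h i j) : Function.Injective (pos2 W M w h i j) := by
  obtain ⟨hW, hM, w0, w2, i0, i2, ij, j2, jh, h2⟩ := H
  have H : Hyp W M w h i j := ⟨hW, hM, w0, w2, i0, i2, ij, j2, jh, h2⟩
  rintro (⟨⟨a, b⟩, ha, hb⟩ | ⟨⟨x, y⟩, hq⟩ | t) (⟨⟨a', b'⟩, ha', hb'⟩ | ⟨⟨x', y'⟩, hq'⟩ | t') e
  · simp only [pos2, Prod.mk.injEq] at e
    simp only [Sum.inl.injEq, Subtype.mk.injEq, Prod.mk.injEq]
    omega
  · have := (mem_PO H).1 hq'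
    simp only [pos2, Prod.mk.injEq] at e this ha hb
    omega
  · have := t'.2
    simp only [pos2] at e ha hb
    split_ifs at e <;> simp only [Prod.mk.injEq] at e <;> omega
  · have := (mem_PO H).1 hq
    simp only [pos2, Prod.mk.injEq] at e this ha' hb'
    omega
  · simp only [pos2, Prod.mk.injEq] at e
    obtain ⟨rfl, rfl⟩ := e
    rfl
  · have := (mem_PO H).1 hq
    have := t'.2
    simp only [pos2] at e this
    split_ifs at e <;> simp only [Prod.mk.injEq] at e <;> omega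
  · have := t.2
    simp only [pos2] at e ha' hb'
    split_ifs at e <;> simp only [Prod.mk.injEq] at e <;> omega
  · have := (mem_PO H).1 hq'
    have := t.2
    simp only [pos2] at e this
    split_ifs at e <;> simp only [Prod.mk.injEq] at e <;> omega
  · have h3 := t.2
    have h4 := t'.2
    have : (t : ℕ) = t' := by
      simp only [pos2] at e
      split_ifs at e <;> simp only [Prod.mk.injEq] at e <;> omega
    rw [Fin.ext this]

theorem pos1_surj (H : Hyp W M w h i j) {q : ℤ × ℤ} (hq : q ∈ PJ w h i) :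
    ∃ x, pos1 W M w h i j x = q := by
  obtain ⟨hW, hM, w0, w2, i0, i2, ij, j2, jh, h2⟩ := H
  have H : Hyp W M w h i j := ⟨hW, hM, w0, w2, i0, i2, ij, j2, jh, h2⟩
  obtain ⟨x, y⟩ := q
  rw [mem_PJ] at hq
  simp only at hq
  by_cases h1 : (x, y) ∈ PO w h i j
  · exact ⟨.inr (.inl ⟨(x, y), h1⟩), rfl⟩
  rw [mem_PO H] at h1
  simp only at h1
  by_cases h3 : 0 ≤ x ∧ x < w ∧ i ≤ y
  · refine ⟨.inl ⟨(x.toNat, (y - i).toNat), by simp only; omega, by simp only; omega⟩, ?_⟩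
    simp only [pos1, Prod.mk.injEq]
    omega
  by_cases h4 : x = -1
  · refine ⟨.inr (.inr ⟨(j - 1 - y).toNat, by omega⟩), ?_⟩
    simp only [pos1]
    rw [if_pos (by omega)]
    simp only [Prod.mk.injEq]
    omega
  · refine ⟨.inr (.inr ⟨M + x.toNat, by omega⟩), ?_⟩
    simp only [pos1]
    rw [if_neg (by omega)]
    simp only [Prod.mk.injEq]
    omega

theorem pos2_surj (H : Hyp W M w h i j) {q : ℤ × ℤ} (hq : q ∈ PJ w h j) :
    ∃ x, pos2 W M w h i j x = q := by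
  obtain ⟨hW, hM, w0, w2, i0, i2, ij, j2, jh, h2⟩ := H
  have H : Hyp W M w h i j := ⟨hW, hM, w0, w2, i0, i2, ij, j2, jh, h2⟩
  obtain ⟨x, y⟩ := q
  rw [mem_PJ] at hq
  simp only at hq
  by_cases h1 : (x, y) ∈ PO w h i j
  · exact ⟨.inr (.inl ⟨(x, y), h1⟩), rfl⟩
  rw [mem_PO H] at h1
  simp only at h1
  by_cases h3 : 0 ≤ x ∧ x < w ∧ y < j - 1
  · refine ⟨.inl ⟨(x.toNat, (y - (i - 1)).toNat), by simp only; omega, by simp only; omega⟩, ?_⟩
    simp only [pos2, Prod.mk.injEq]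
    omega
  by_cases h4 : x = w
  · refine ⟨.inr (.inr ⟨(y - (i - 1)).toNat, by omega⟩), ?_⟩
    simp only [pos2]
    rw [if_pos (by omega)]
    simp only [Prod.mk.injEq]
    omega
  · refine ⟨.inr (.inr ⟨M + (w - 1 - x).toNat, by omega⟩), ?_⟩
    simp only [pos2]
    rw [if_neg (by omega)]
    simp only [Prod.mk.injEq]
    omega

/-- the tiles of the environment number `i` -/
noncomputable def J1 (H : Hyp W M w h i j) : RQ W M ⊕ OT w h i j ⊕ Fin (M + W) ≃ TJ w h i :=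
  Equiv.ofBijective (fun x => ⟨pos1 W M w h i j x, pos1_mem H x⟩)
    ⟨fun _ _ e => pos1_inj H (congrArg Subtype.val e), fun q => by
      obtain ⟨x, hx⟩ := pos1_surj H q.2
      exact ⟨x, Subtype.ext hx⟩⟩

/-- the tiles of the environment number `j` -/
noncomputable def J2 (H : Hyp W M w h i j) : RQ W M ⊕ OT w h i j ⊕ Fin (M + W) ≃ TJ w h j :=
  Equiv.ofBijective (fun x => ⟨pos2 W M w h i j x, pos2_mem H x⟩)
    ⟨fun _ _ e => pos2_inj H (congrArg Subtype.val e), fun q => by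
      obtain ⟨x, hx⟩ := pos2_surj H q.2
      exact ⟨x, Subtype.ext hx⟩⟩

theorem J1_val (H : Hyp W M w h i j) (x : RQ W M ⊕ OT w h i j ⊕ Fin (M + W)) :
    (J1 H x).1 = pos1 W M w h i j x := rfl

theorem J2_val (H : Hyp W M w h i j) (x : RQ W M ⊕ OT w h i j ⊕ Fin (M + W)) :
    (J2 H x).1 = pos2 W M w h i j x := rfl

/-- first ends of the tiles of the first line -/
def s1 (W M : ℕ) (t : Fin (M + W)) : Dir := if (t : ℕ) < M then .N else .W

/-- first ends of the tiles of the second line -/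
def s2 (W M : ℕ) (t : Fin (M + W)) : Dir := if (t : ℕ) < M then .S else .E

/-! ### Wires by positions -/

section wires

variable (O : Out w h) (h0 : 0 ≤ j) (h1 : j ≤ h)

/-- a wire between two ends given by positions -/
def WQ (p : ℤ × ℤ) (d : Dir) (p' : ℤ × ℤ) (d' : Dir) (t : ℤ) : Prop :=
  ∀ (a : p ∈ PJ w h j) (b : p' ∈ PJ w h j), IsW O h0 h1 (⟨p, a⟩, d) (⟨p', b⟩, d') t

variable {O h0 h1} {x y x' y' : ℤ}

theorem WQ.symm {p p' : ℤ × ℤ} {d d' : Dir} {t : ℤ} (H : WQ O h0 h1 p d p' d' t) :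
    WQ O h0 h1 p' d' p d (-t) := fun a b => (H b a).symm

theorem q_EW (e1 : x' = x + 1) (e2 : y' = y) : WQ O h0 h1 (x, y) .E (x', y') .W 0 := by
  subst e1 e2
  exact fun a b => isW_EW a b

theorem q_WE (e1 : x' = x - 1) (e2 : y' = y) : WQ O h0 h1 (x, y) .W (x', y') .E 0 := by
  have := (q_EW (O := O) (h0 := h0) (h1 := h1) (x := x') (y := y') (x' := x) (y' := y) (by omega)
    (by omega)).symm
  rwa [neg_zero] at this

theorem q_NS (e1 : x' = x) (e2 : y' = y + 1) : WQ O h0 h1 (x, y) .N (x', y') .S 0 := by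
  subst e1 e2
  exact fun a b => isW_NS a b

theorem q_SN (e1 : x' = x) (e2 : y' = y - 1) : WQ O h0 h1 (x, y) .S (x', y') .N 0 := by
  have := (q_NS (O := O) (h0 := h0) (h1 := h1) (x := x') (y := y') (x' := x) (y' := y) (by omega)
    (by omega)).symm
  rwa [neg_zero] at this

theorem q_Lout (hj : j % 2 = 0) (ex : x = -1) (ex' : x' = -1) (hy : y' % 2 = 0) (e : y = y' - 1)
    (a : j < y') (b : y' < h) : WQ O h0 h1 (x, y) .W (x', y') .W (-2) := by
  obtain ⟨m, rfl⟩ : ∃ m, y' = 2 * m := ⟨y' / 2, by omega⟩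
  subst ex ex' e
  exact fun p q => L_out O h0 h1 hj a b p q

theorem q_Lmid (hj : j % 2 = 0) (ex : x = 0) (ex' : x' = -1) (e : y = j - 2) (e' : y' = j)
    (a : 2 ≤ j) (b : j < h) : WQ O h0 h1 (x, y) .W (x', y') .W (-2) := by
  subst ex ex' e e'
  exact fun p q => L_mid O h0 h1 hj a b p q

theorem q_Llow (ex : x = 0) (ex' : x' = 0) (hy : y % 2 = 0) (e : y' = y + 1)
    (a : 0 ≤ y) (b : y + 2 < j) : WQ O h0 h1 (x, y) .W (x', y') .W (-2) := by
  obtain ⟨m, rfl⟩ : ∃ m, y = 2 * m := ⟨y / 2, by omega⟩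
  subst ex ex' e
  exact fun p q => L_low O h0 h1 (m := m) (by omega) b p q

theorem q_Ccap (hx : x % 2 = 0) (e : x' = x - 1) (ey : y = h - 1) (ey' : y' = h - 1)
    (a : 2 ≤ x) (b : x < w) : WQ O h0 h1 (x, y) .N (x', y') .N 2 := by
  obtain ⟨m, rfl⟩ : ∃ m, x = 2 * m := ⟨x / 2, by omega⟩
  subst e ey ey'
  exact fun p q => C_cap O h0 h1 (m := m) (by omega) b p q

theorem q_C0 (ex : x = 0) (ex' : x' = -1) (ey : y = h - 1) (ey' : y' = h - 1) (a : j < h) :
    WQ O h0 h1 (x, y) .N (x', y') .N 2 := by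
  subst ex ex' ey ey'
  exact fun p q => C_zero O h0 h1 a p q

theorem q_C0' (ex : x = 0) (ex' : x' = 0) (ey : y = h - 1) (ey' : y' = h - 1) (a : j = h) :
    WQ O h0 h1 (x, y) .N (x', y') .W 3 := by
  subst ex ex' ey ey'
  exact fun p q => C_zero' O h0 h1 a p

theorem q_Fcap (hx : x % 2 = 0) (e : x' = x + 1) (ey : y = -1) (ey' : y' = -1)
    (a : 0 ≤ x) (b : x < w) : WQ O h0 h1 (x, y) .S (x', y') .S 2 := by
  obtain ⟨m, rfl⟩ : ∃ m, x = 2 * m := ⟨x / 2, by omega⟩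
  subst e ey ey'
  exact fun p q => F_cap O h0 h1 (m := m) (by omega) b p q

theorem q_Rup (ex : x = w - 1) (ex' : x' = w - 1) (hy : y' % 2 = 0) (e : y = y' + 1)
    (a : j ≤ y') (b : y' < h) : WQ O h0 h1 (x, y) .E (x', y') .E (-2) := by
  obtain ⟨m, rfl⟩ : ∃ m, y' = 2 * m := ⟨y' / 2, by omega⟩
  subst ex ex' e
  exact fun p q => R_up O h0 h1 a b p q

theorem q_Rout (ex : x = w) (ex' : x' = w) (hy : y % 2 = 0) (e : y' = y - 1)
    (a : 0 ≤ y) (b : y < j) : WQ O h0 h1 (x, y) .E (x', y') .E (-2) := by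
  obtain ⟨m, rfl⟩ : ∃ m, y = 2 * m := ⟨y / 2, by omega⟩
  subst ex ex' e
  exact fun p q => R_out O h0 h1 (m := m) (by omega) b p q

theorem q_Tl (hj : j % 2 = 0) (ex : x = -1) (ex' : x' = 0) (e : y = j) (e' : y' = j - 1) :
    WQ O h0 h1 (x, y) .S (x', y') .W 1 := by
  subst ex ex' e e'
  exact fun p q => T_left O h0 h1 hj p q

theorem q_Tr (hj : j % 2 = 0) (ex : x = w - 1) (ex' : x' = w) (e : y = j - 1) (e' : y' = j - 2) :
    WQ O h0 h1 (x, y) .E (x', y') .N (-1) := by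
  subst ex ex' e e'
  exact fun p q => T_right O h0 h1 hj p q

end wires

end Pool.Agent.H64.R45
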